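import Mathlib
import Pool.Agent.P.MP_71e30e_nt.GAux

-- part Pool.Agent.P.MP_ed9a6e_lc.Sp1
section

set_option autoImplicit false

/-! Elementary lemmas: almost coprime divisors, splitting off large prime powers, digits. -/

namespace Pool.Agent.P.MP_ed9a6e_lc.Sp

open Finset

theorem gcd_prod_dvd {ι : Type*} (S : Finset ι) (a : ι → ℕ) (b g : ℕ)
    (hg : ∀ i ∈ S, Nat.gcd b (a i) ∣ g) : Nat.gcd b (∏ i ∈ S, a i) ∣ g ^ S.card := by
  classical
  induction S using Finset.induction_on with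
  | empty => simp
  | insert j S hj ih =>
    rw [prod_insert hj, card_insert_of_notMem hj, pow_succ']
    exact (Nat.gcd_mul_right_dvd_mul_gcd b _ _).trans
      (mul_dvd_mul (hg j (mem_insert_self _ _)) (ih fun i hi => hg i (mem_insert_of_mem hi)))

theorem prod_dvd {ι : Type*} (S : Finset ι) (a : ι → ℕ) (V g : ℕ) (hV : ∀ i ∈ S, a i ∣ V)
    (hg : ∀ i ∈ S, ∀ j ∈ S, i ≠ j → Nat.gcd (a i) (a j) ∣ g) :
    ∏ i ∈ S, a i ∣ g ^ (S.card ^ 2) * V := by
  classical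
  induction S using Finset.induction_on with
  | empty => simp
  | insert j S hj ih =>
    have h1 := ih (fun i hi => hV i (mem_insert_of_mem hi))
      (fun i hi k hk => hg i (mem_insert_of_mem hi) k (mem_insert_of_mem hk))
    have h2 : a j ∣ g ^ (S.card ^ 2) * V := (hV j (mem_insert_self _ _)).mul_left _
    have h3 := gcd_prod_dvd S a (a j) g fun i hi =>
      hg j (mem_insert_self _ _) i (mem_insert_of_mem hi) (fun h => hj (h ▸ hi))
    rw [prod_insert hj, card_insert_of_notMem hj, ← Nat.gcd_mul_lcm]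
    refine (mul_dvd_mul h3 (Nat.lcm_dvd h2 h1)).trans ?_
    rw [← mul_assoc, ← pow_add]
    exact mul_dvd_mul_right (pow_dvd_pow _ (by nlinarith)) _

/-- common divisors of two shifts divide a factorial -/
theorem gcd_shift_dvd {w i j c a b : ℕ} (hi : i < c) (hj : j < c) (hij : i ≠ j) (ha : a ∣ w + i)
    (hb : b ∣ w + j) : Nat.gcd a b ∣ c.factorial := by
  have h1 : Nat.gcd a b ∣ w + i := (Nat.gcd_dvd_left a b).trans ha
  have h2 : Nat.gcd a b ∣ w + j := (Nat.gcd_dvd_right a b).trans hb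
  rcases lt_or_gt_of_ne hij with h | h
  · have h3 : Nat.gcd a b ∣ j - i := by
      have := Nat.dvd_sub h2 h1
      rwa [show w + j - (w + i) = j - i by omega] at this
    exact h3.trans (Nat.dvd_factorial (by omega) (by omega))
  · have h3 : Nat.gcd a b ∣ i - j := by
      have := Nat.dvd_sub h1 h2
      rwa [show w + i - (w + j) = i - j by omega] at this
    exact h3.trans (Nat.dvd_factorial (by omega) (by omega))

theorem cube_dvd {m q u T : ℕ} (hm : m ≠ 0) (hq : q ≠ 0) (hu : u ≠ 0) (hT : 4 * u ≤ T)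
    (h : ∀ p, p.Prime → p ∣ m → p ∣ q) :
    m ^ 3 ∣ Nat.gcd m (q ^ T) ^ 3 * Nat.floorRoot u m ^ (4 * u) := by
  have h1 : Nat.gcd m (q ^ T) ≠ 0 := (Nat.gcd_pos_of_pos_left _ (Nat.pos_of_ne_zero hm)).ne'
  have h2 : Nat.floorRoot u m ≠ 0 := Nat.floorRoot_ne_zero.2 ⟨hu, hm⟩
  rw [← Nat.factorization_prime_le_iff_dvd (pow_ne_zero _ hm)
    (mul_ne_zero (pow_ne_zero _ h1) (pow_ne_zero _ h2))]
  intro p hp
  rw [Nat.factorization_mul (pow_ne_zero _ h1) (pow_ne_zero _ h2), Nat.factorization_pow,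
    Nat.factorization_pow, Nat.factorization_pow, Nat.factorization_gcd hm (pow_ne_zero _ hq),
    Nat.factorization_pow, Nat.factorization_floorRoot]
  simp only [Finsupp.add_apply, Finsupp.smul_apply, smul_eq_mul, Finsupp.inf_apply,
    Finsupp.floorDiv_apply, Nat.floorDiv_eq_div]
  set e := m.factorization p with he
  set f := q.factorization p with hf
  by_cases h0 : e = 0
  · simp [h0]
  have hf1 : 1 ≤ f := hp.factorization_pos_of_dvd hq (h p hp (Nat.dvd_of_factorization_pos h0))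
  have h3 := Nat.div_add_mod e u
  have h4 := Nat.mod_lt e (Nat.pos_of_ne_zero hu)
  have h5 : 4 * u * (e / u) = 4 * (u * (e / u)) := by ring
  rw [h5]
  rcases le_total e T with h6 | h6
  · have : e ≤ T * f := h6.trans (Nat.le_mul_of_pos_right _ hf1)
    rw [min_eq_left this]
    omega
  · omega

/-- the product of the primes dividing `n` -/
def rd (n : ℕ) : ℕ := ∏ p ∈ n.primeFactors, p

theorem rd_pos (n : ℕ) : 0 < rd n :=
  prod_pos fun _ hp => (Nat.prime_of_mem_primeFactors hp).pos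

theorem rd_dvd {n m : ℕ} (h : ∀ p, p.Prime → p ∣ n → p ∣ m) : rd n ∣ m :=
  Finset.prod_primes_dvd m (fun _ hp => (Nat.prime_of_mem_primeFactors hp).prime)
    fun p hp => h p (Nat.prime_of_mem_primeFactors hp) (Nat.dvd_of_mem_primeFactors hp)

theorem rd_dvd_self (n : ℕ) : rd n ∣ n := rd_dvd fun _ _ h => h

theorem split_pow {n q : ℕ} (hn : n ≠ 0) (hq : q ≠ 0) :
    ∃ a b : ℕ, n = a * b ^ q ∧ a ≤ rd n ^ q := by
  obtain ⟨a, ha⟩ := Nat.floorRoot_pow_dvd (n := q) (a := n)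
  have h2 : Nat.floorRoot q n ≠ 0 := Nat.floorRoot_ne_zero.2 ⟨hq, hn⟩
  have ha0 : a ≠ 0 := by rintro rfl; exact hn (by simpa using ha)
  refine ⟨a, Nat.floorRoot q n, by rw [mul_comm]; exact ha, Nat.le_of_dvd (pow_pos (rd_pos n) _) ?_⟩
  rw [← Nat.factorization_prime_le_iff_dvd ha0 (pow_pos (rd_pos n) _).ne']
  intro p hp
  have h3 := congrArg (fun k : ℕ => k.factorization p) ha
  simp only [Nat.factorization_mul (pow_ne_zero _ h2) ha0, Nat.factorization_pow,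
    Nat.factorization_floorRoot, Finsupp.add_apply, Finsupp.smul_apply, smul_eq_mul,
    Finsupp.floorDiv_apply, Nat.floorDiv_eq_div] at h3
  rw [Nat.factorization_pow, Finsupp.smul_apply, smul_eq_mul]
  by_cases h0 : a.factorization p = 0
  · simp [h0]
  have h4 : p ∣ n := by
    rw [ha]; exact (Nat.dvd_of_factorization_pos h0).mul_left _
  have h5 : 1 ≤ (rd n).factorization p :=
    hp.factorization_pos_of_dvd (rd_pos n).ne'
      (dvd_prod_of_mem _ (Nat.mem_primeFactors.2 ⟨hp, h4, hn⟩))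
  have h6 := Nat.div_add_mod (n.factorization p) q
  have h7 := Nat.mod_lt (n.factorization p) (Nat.pos_of_ne_zero hq)
  have h8 : q ≤ q * (rd n).factorization p := Nat.le_mul_of_pos_right _ h5
  omega

theorem digits_zero (w : ℤ) (hw : 0 < w) : ∀ (n : ℕ) (x : Fin n → ℤ), (∀ b, |x b| < w) →
    ∑ b : Fin n, w ^ (b : ℕ) * x b = 0 → ∀ b, x b = 0 := by
  intro n
  induction n with
  | zero => intro x _ _ b; exact b.elim0
  | succ n ih =>
    intro x hx h
    rw [Fin.sum_univ_succ] at h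
    have h1 : ∑ b : Fin n, w ^ ((b.succ : Fin (n + 1)) : ℕ) * x b.succ =
        w * ∑ b : Fin n, w ^ (b : ℕ) * x b.succ := by
      rw [mul_sum]
      refine sum_congr rfl fun b _ => ?_
      rw [Fin.val_succ, pow_succ]; ring
    rw [h1] at h
    simp only [Fin.val_zero, pow_zero, one_mul] at h
    have h2 : x 0 = 0 := by
      refine Int.eq_zero_of_abs_lt_dvd (m := w) ⟨-∑ b : Fin n, w ^ (b : ℕ) * x b.succ, ?_⟩ (hx 0)
      linarith
    rw [h2, zero_add] at h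
    have h3 := ih (fun b => x b.succ) (fun b => hx _) ((mul_eq_zero.1 h).resolve_left hw.ne')
    intro b
    exact Fin.cases h2 h3 b

/-- two large prime power parts determine the number -/
theorem unique_of_heavy {c a b x y w w' : ℕ} (ha : a < c) (hb : b < c) (hab : a ≠ b)
    (h1 : x ∣ w + a) (h2 : y ∣ w + b) (h3 : x ∣ w' + a) (h4 : y ∣ w' + b)
    (h5 : (w' + a) ^ 9 ≤ x ^ 16) (h6 : (w' + b) ^ 9 ≤ y ^ 16) (hw : c.factorial ^ 8 < w') :
    ¬ w < w' := by
  intro hlt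
  have g1 : x ∣ w' - w := by
    have := Nat.dvd_sub h3 h1
    rwa [show w' + a - (w + a) = w' - w by omega] at this
  have g2 : y ∣ w' - w := by
    have := Nat.dvd_sub h4 h2
    rwa [show w' + b - (w + b) = w' - w by omega] at this
  have g3 : x * y ∣ c.factorial * (w' - w) := by
    rw [← Nat.gcd_mul_lcm]
    exact mul_dvd_mul (gcd_shift_dvd ha hb hab h1 h2) (Nat.lcm_dvd g1 g2)
  have g4 : x * y ≤ c.factorial * w' :=
    (Nat.le_of_dvd (Nat.mul_pos c.factorial_pos (by omega)) g3).trans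
      (Nat.mul_le_mul_left _ (by omega))
  have g5 : w' ^ 9 * w' ^ 9 ≤ x ^ 16 * y ^ 16 :=
    Nat.mul_le_mul ((Nat.pow_le_pow_left (by omega) 9).trans h5)
      ((Nat.pow_le_pow_left (by omega) 9).trans h6)
  have g6 : w' ^ 2 * w' ^ 16 ≤ (c.factorial ^ 8) ^ 2 * w' ^ 16 := by
    calc w' ^ 2 * w' ^ 16 = w' ^ 9 * w' ^ 9 := by ring
      _ ≤ (x * y) ^ 16 := by rw [mul_pow]; exact g5
      _ ≤ (c.factorial * w') ^ 16 := Nat.pow_le_pow_left g4 16
      _ = _ := by ring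
  have g7 := Nat.le_of_mul_le_mul_right g6 (pow_pos (by omega) 16)
  exact absurd (Nat.pow_lt_pow_left hw (two_ne_zero)) (not_lt.2 g7)

end Pool.Agent.P.MP_ed9a6e_lc.Sp
end

-- part Pool.Agent.P.MP_ed9a6e_lc.Sp2
section

set_option autoImplicit false

/-! The auxiliary polynomial and the zero estimate. -/

namespace Pool.Agent.P.MP_ed9a6e_lc.Sp

open Finset Polynomial Pool.Agent.P.MP_71e30e_nt

theorem coeff_pow_bound (s : ℤ) (m : ℕ) (hm : 1 ≤ m) (hs : |s| ≤ m) {a D : ℕ} (ha : a ≤ D)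
    (r : ℕ) : |((X + C s) ^ a : ℤ[X]).coeff r| ≤ (2 * m) ^ D := by
  rw [coeff_X_add_C_pow, abs_mul, abs_pow, Nat.abs_cast, mul_pow, mul_comm]
  have h1 : (1 : ℤ) ≤ m := by exact_mod_cast hm
  have h2 : ((a.choose r : ℕ) : ℤ) ≤ 2 ^ D := by
    exact_mod_cast (Nat.choose_le_two_pow a r).trans (Nat.pow_le_pow_right two_pos ha)
  have h3 : |s| ^ (a - r) ≤ (m : ℤ) ^ D :=
    (pow_le_pow_left₀ (abs_nonneg _) hs _).trans (pow_le_pow_right₀ h1 (by omega))
  exact mul_le_mul h2 h3 (by positivity) (by positivity)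

/-- the polynomial with given coefficients -/
noncomputable def pol (D : ℕ) (c : ℕ → ℤ) : ℤ[X] := ∑ a ∈ range D, C (c a) * X ^ a

theorem pol_coeff {D : ℕ} {c : ℕ → ℤ} (h : ∀ a, D ≤ a → c a = 0) (n : ℕ) :
    (pol D c).coeff n = c n := by
  simp only [pol, finsetSum_coeff, coeff_C_mul, coeff_X_pow, mul_ite, mul_one, mul_zero]
  rw [sum_ite_eq]
  split_ifs with h1
  · rfl
  · exact (h n (by simpa using h1)).symm

theorem pol_natDegree (D : ℕ) (c : ℕ → ℤ) : (pol D c).natDegree ≤ D :=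
  natDegree_sum_le_of_forall_le _ _ fun _ ha =>
    (natDegree_C_mul_X_pow_le _ _).trans (mem_range.1 ha).le

theorem taylor_pol (D : ℕ) (c : ℕ → ℤ) (s : ℤ) (r : ℕ) :
    (taylor s (pol D c)).coeff r = ∑ a ∈ range D, c a * ((X + C s) ^ a : ℤ[X]).coeff r := by
  simp only [pol, map_sum, finsetSum_coeff, taylor_mul, taylor_C, taylor_X_pow, coeff_C_mul]

theorem taylor_comb {n : ℕ} (x : Fin n → ℤ) (A : Fin n → ℤ[X]) (s : ℤ) (r : ℕ) :
    (taylor s (∑ b, C (x b) * A b)).coeff r = ∑ b, x b * (taylor s (A b)).coeff r := by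
  simp only [map_sum, finsetSum_coeff, taylor_mul, taylor_C, coeff_C_mul]

theorem exists_aux (c n D T : ℕ) (J : Finset ℕ) (hc : 1 ≤ c) (hJ : ∀ i ∈ J, i < c)
    (h0 : 0 < J.card * T) (hE : 2 * (J.card * T) ≤ n * D) :
    ∃ a : Fin n → ℕ → ℤ, (∃ b m, a b m ≠ 0) ∧ (∀ b m, D ≤ m → a b m = 0) ∧
      (∀ b m, |a b m| ≤ (n * D * (c ^ n * (2 * c) ^ D) : ℕ)) ∧
      ∀ i ∈ J, (X + C (i : ℤ)) ^ T ∣ ∑ b : Fin n, C ((-(i : ℤ)) ^ (b : ℕ)) * pol D (a b) := by
  classical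
  have hc1 : (1 : ℤ) ≤ c := by exact_mod_cast hc
  obtain ⟨a, h1, h2, h3, h4⟩ := siegel_fam (ι := Fin n) (ρ := J × Fin T) (fun _ => D)
    (fun r b m => (-((r.1 : ℕ) : ℤ)) ^ (b : ℕ) * ((X + C (-((r.1 : ℕ) : ℤ))) ^ m : ℤ[X]).coeff r.2)
    (B := ((c ^ n * (2 * c) ^ D : ℕ) : ℝ))
    (by exact_mod_cast Nat.one_le_iff_ne_zero.2 (by positivity))
    (fun r b m hm => by
      have hr : |(-((r.1 : ℕ) : ℤ))| ≤ c := by
        rw [abs_neg, Nat.abs_cast]; exact_mod_cast (hJ _ r.1.2).le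
      have g1 := coeff_pow_bound _ c hc hr hm.le r.2
      have g2 : |(-((r.1 : ℕ) : ℤ)) ^ (b : ℕ)| ≤ (c : ℤ) ^ n := by
        rw [abs_pow]
        exact (pow_le_pow_left₀ (abs_nonneg _) hr _).trans (pow_le_pow_right₀ hc1 b.2.le)
      have g3 := mul_le_mul g2 g1 (abs_nonneg _) (by positivity)
      rw [← abs_mul] at g3
      exact_mod_cast g3)
    1 (by simpa using h0) (by simpa using hE)
  refine ⟨a, h1, h2, fun b m => ?_, fun i hi => ?_⟩
  · have := h3 b m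
    simp only [sum_const, card_univ, Fintype.card_fin, smul_eq_mul, pow_one] at this
    exact_mod_cast this
  · have g : X ^ T ∣ taylor (-(i : ℤ)) (∑ b : Fin n, C ((-(i : ℤ)) ^ (b : ℕ)) * pol D (a b)) := by
      rw [X_pow_dvd_iff]
      intro r hr
      have := h4 (⟨i, hi⟩, ⟨r, hr⟩)
      rw [sum_sigma] at this
      rw [taylor_comb, ← this]
      refine sum_congr rfl fun b _ => ?_
      rw [taylor_pol, mul_sum]
      exact sum_congr rfl fun m _ => by ring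
    obtain ⟨S, hS⟩ := g
    have g2 := congrArg (taylor (i : ℤ)) hS
    rw [taylor_taylor, add_neg_cancel, taylor_zero, taylor_mul, taylor_X_pow] at g2
    exact ⟨_, g2⟩

theorem pow_dvd_taylor {G : ℤ[X]} {i z : ℤ} {T μ : ℕ} (h : (X + C i) ^ (2 * T) ∣ G) (hμ : μ ≤ T) :
    (z + i) ^ T ∣ (taylor z G).coeff μ := by
  obtain ⟨S, rfl⟩ := h
  rw [taylor_mul, taylor_pow, map_add, taylor_X, taylor_C, add_assoc, ← C_add, coeff_mul]
  refine dvd_sum fun p hp => Dvd.dvd.mul_right ?_ _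
  rw [coeff_X_add_C_pow]
  have := mem_antidiagonal.1 hp
  exact (pow_dvd_pow _ (by omega)).mul_right _

theorem exists_coeff_ne {n D T e z : ℕ} (a : Fin n → ℕ → ℤ) {H K w : ℕ} (h1 : ∃ b m, a b m ≠ 0)
    (h2 : ∀ b m, D ≤ m → a b m = 0) (h3 : ∀ b m, |a b m| ≤ H) (hD : 1 ≤ D) (hH : 1 ≤ H)
    (hw : H < w) (hK : 24 * D ^ 2 * H ≤ K) (he : e + n = T) (hz : K ^ 2 ^ n < z ^ e) :
    ∃ μ < T, (taylor (z : ℤ) (∑ b : Fin n, C ((w : ℤ) ^ (b : ℕ)) * pol D (a b))).coeff μ ≠ 0 := by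
  by_contra hcon
  push Not at hcon
  set F : ℤ[X] := ∑ b : Fin n, C ((w : ℤ) ^ (b : ℕ)) * pol D (a b) with hF
  have hF0 : F ≠ 0 := by
    intro h0
    obtain ⟨b, m, hb⟩ := h1
    refine hb (digits_zero w (by exact_mod_cast (by omega : 0 < w)) n (fun b => a b m)
      (fun b => (h3 b m).trans_lt (by exact_mod_cast hw)) ?_ b)
    have := congrArg (fun P : ℤ[X] => P.coeff m) h0
    simpa only [hF, finsetSum_coeff, coeff_C_mul, pol_coeff (h2 _), coeff_zero] using this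
  have hmap : F.map (Int.castRingHom ℂ) =
      ∑ b : Fin n, C ((w : ℂ) ^ (b : ℕ)) * (pol D (a b)).map (Int.castRingHom ℂ) := by
    simp [hF, Polynomial.map_sum]
  obtain ⟨S, hS⟩ : X ^ T ∣ taylor (z : ℤ) F := X_pow_dvd_iff.2 hcon
  have g2 := congrArg (taylor (-(z : ℤ))) hS
  rw [taylor_taylor, neg_add_cancel, taylor_zero, taylor_mul, taylor_X_pow] at g2
  have g3 : (X - C (z : ℂ)) ^ (e + n) ∣ F.map (Int.castRingHom ℂ) := by
    rw [he, g2, Polynomial.map_mul]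
    refine Dvd.dvd.mul_right (dvd_of_eq ?_) _
    simp [sub_eq_add_neg]
  have g4 := zero_est (z : ℂ) (fun b : Fin n => (w : ℂ) ^ (b : ℕ)) e n univ (fun b => pol D (a b))
    D H K (by simp) hD (by exact_mod_cast hH) (fun b _ => pol_natDegree _ _)
    (fun b _ m => by rw [pol_coeff (h2 b)]; exact_mod_cast h3 b m) (by exact_mod_cast hK)
    (by rw [← hmap]; exact (Polynomial.map_ne_zero_iff Int.cast_injective).2 hF0)
    (by rw [← hmap]; exact g3)
  rw [Complex.norm_natCast] at g4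
  exact absurd hz (not_lt.2 (by exact_mod_cast g4))

theorem value_bound {n D z : ℕ} (a : Fin n → ℕ → ℤ) {H w : ℕ} (h3 : ∀ b m, |a b m| ≤ H)
    (hz : 1 ≤ z) (hw : 1 ≤ w) (μ : ℕ) :
    |(taylor (z : ℤ) (∑ b : Fin n, C ((w : ℤ) ^ (b : ℕ)) * pol D (a b))).coeff μ| ≤
      (n * (w ^ n * (D * (H * (2 * z) ^ D))) : ℕ) := by
  rw [taylor_comb]
  refine (abs_sum_le_sum_abs _ _).trans ?_
  have hw1 : (1 : ℤ) ≤ w := by exact_mod_cast hw
  have h : ∀ b : Fin n, |(w : ℤ) ^ (b : ℕ) * (taylor (z : ℤ) (pol D (a b))).coeff μ| ≤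
      (w : ℤ) ^ n * (D * (H * (2 * z) ^ D)) := by
    intro b
    rw [abs_mul, abs_of_nonneg (by positivity : (0 : ℤ) ≤ (w : ℤ) ^ (b : ℕ))]
    refine mul_le_mul (pow_le_pow_right₀ hw1 b.2.le) ?_ (abs_nonneg _) (by positivity)
    rw [taylor_pol]
    refine (abs_sum_le_sum_abs _ _).trans ?_
    refine (sum_le_card_nsmul _ _ ((H : ℤ) * (2 * z) ^ D) fun m hm => ?_).trans (by simp)
    rw [abs_mul]
    exact mul_le_mul (h3 b m) (coeff_pow_bound _ z hz (by simp) (mem_range.1 hm).le μ)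
      (abs_nonneg _) (by positivity)
  refine (sum_le_card_nsmul _ _ _ fun b _ => h b).trans (le_of_eq ?_)
  simp

theorem gcd_dvd_value {n D T z w i μ : ℕ} (a : Fin n → ℕ → ℤ)
    (h : (X + C (i : ℤ)) ^ (2 * T) ∣ ∑ b : Fin n, C ((-(i : ℤ)) ^ (b : ℕ)) * pol D (a b))
    (hμ : μ ≤ T) :
    Nat.gcd (w + i) ((z + i) ^ T) ∣
      ((taylor (z : ℤ) (∑ b : Fin n, C ((w : ℤ) ^ (b : ℕ)) * pol D (a b))).coeff μ).natAbs := by
  rw [← Int.natCast_dvd]
  have h1 := pow_dvd_taylor (z := z) h hμ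
  have h2 : ((w : ℤ) + i) ∣
      (taylor (z : ℤ) (∑ b : Fin n, C ((w : ℤ) ^ (b : ℕ)) * pol D (a b))).coeff μ -
      (taylor (z : ℤ) (∑ b : Fin n, C ((-(i : ℤ)) ^ (b : ℕ)) * pol D (a b))).coeff μ := by
    rw [taylor_comb, taylor_comb, ← sum_sub_distrib]
    refine dvd_sum fun b _ => ?_
    rw [← sub_mul]
    have := sub_dvd_pow_sub_pow (w : ℤ) (-(i : ℤ)) b
    rw [sub_neg_eq_add] at this
    exact this.mul_right _
  have h3 : ((Nat.gcd (w + i) ((z + i) ^ T) : ℕ) : ℤ) ∣ (w : ℤ) + i := by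
    exact_mod_cast Nat.gcd_dvd_left _ _
  have h4 : ((Nat.gcd (w + i) ((z + i) ^ T) : ℕ) : ℤ) ∣ ((z : ℤ) + i) ^ T := by
    exact_mod_cast Nat.gcd_dvd_right _ _
  have := dvd_add (h3.trans h2) (h4.trans h1)
  rwa [sub_add_cancel] at this

end Pool.Agent.P.MP_ed9a6e_lc.Sp
end
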