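import Pool.Agent.K.MP_ed9a6e_lc.C0
import Pool.Agent.Lib.Baker.Primes
import Pool.Agent.Lib.Sieve.Mertens

-- part Pool.Agent.P.MP_ed9a6e_lc.Sp3
section

set_option autoImplicit false

/-! The Thue-Siegel step with the smaller number as anchor. -/

namespace Pool.Agent.P.MP_ed9a6e_lc.Sp

open Finset Polynomial

theorem le_pow_T {a T : ℕ} (hT : 1 ≤ T) : a ≤ a ^ T := Nat.le_self_pow (by omega) a

theorem lin_le {a T : ℕ} (hT : 1 ≤ T) : a * T ≤ (a * 2) ^ T := by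
  rw [mul_pow]
  exact Nat.mul_le_mul (le_pow_T hT) Nat.lt_two_pow_self.le

theorem few_light (c ρ : ℕ) (hc : 1 ≤ c) (hρ : 1 ≤ ρ) : ∃ z0 : ℕ, ∀ (J : Finset ℕ) (z w T : ℕ),
    J.card = 420 * ρ → (∀ i ∈ J, i < c) → z0 ≤ z → 40 * ρ ≤ T → z ^ T ≤ w ^ ρ →
    ¬ ∀ i ∈ J, w + i < Nat.gcd (w + i) ((z + i) ^ T) ^ 4 := by
  obtain ⟨Q1, hQ1⟩ : ∃ Q1, Q1 = (20 * ρ * 84 * 2) * (c ^ (20 * ρ) * (2 * c) ^ 84) := ⟨_, rfl⟩
  obtain ⟨Q2, hQ2⟩ : ∃ Q2, Q2 = 24 * (84 * 2) ^ 2 * Q1 := ⟨_, rfl⟩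
  obtain ⟨G, hG⟩ : ∃ G, G = c.factorial ^ ((420 * ρ) ^ 2) := ⟨_, rfl⟩
  obtain ⟨Q4, hQ4⟩ : ∃ Q4, Q4 = G * ((20 * ρ * 84 * 2) * (Q1 * 2 ^ 84)) := ⟨_, rfl⟩
  refine ⟨(Q2 ^ 2 ^ (20 * ρ)) ^ 2 + Q4 ^ ρ + 1, fun J z w T hJ hJc hz hT hzw hl => ?_⟩
  have hT1 : 1 ≤ T := by omega
  have hz1 : 1 ≤ z := by omega
  have hG1 : 1 ≤ G := by rw [hG]; exact Nat.one_le_pow _ _ c.factorial_pos
  obtain ⟨H, hH⟩ : ∃ H, H = 20 * ρ * (84 * T) * (c ^ (20 * ρ) * (2 * c) ^ (84 * T)) := ⟨_, rfl⟩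
  have hH1 : 1 ≤ H := by rw [hH]; exact Nat.one_le_iff_ne_zero.2 (by positivity)
  have hHQ : H ≤ Q1 ^ T := by
    rw [hH, hQ1, mul_pow (20 * ρ * 84 * 2), mul_pow (c ^ (20 * ρ)), ← mul_assoc (20 * ρ),
      pow_mul (2 * c)]
    exact Nat.mul_le_mul (lin_le hT1) (Nat.mul_le_mul_right _ (le_pow_T hT1))
  have hK : 24 * (84 * T) ^ 2 * H ≤ Q2 ^ T := by
    rw [hQ2, mul_pow (24 * _), mul_pow 24, ← pow_mul, mul_comm 2 T, pow_mul]
    exact Nat.mul_le_mul (Nat.mul_le_mul (le_pow_T hT1) (Nat.pow_le_pow_left (lin_le hT1) 2)) hHQ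
  have hQw : Q4 ^ T ≤ w := by
    refine (Nat.pow_le_pow_iff_left (n := ρ) (by omega)).1 (le_trans ?_ hzw)
    rw [← pow_mul, mul_comm, pow_mul]
    exact Nat.pow_le_pow_left (by omega) _
  have hjunk : G * (20 * ρ * (84 * T) * (H * 2 ^ (84 * T))) ≤ w := by
    refine le_trans ?_ hQw
    rw [hQ4, mul_pow G, mul_pow (_ * 2), mul_pow Q1, ← mul_assoc (20 * ρ), pow_mul 2]
    exact Nat.mul_le_mul (le_pow_T hT1) (Nat.mul_le_mul (lin_le hT1) (Nat.mul_le_mul_right _ hHQ))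
  have hHw : H < w := by
    have h1 : 2 ≤ 2 ^ (84 * T) := Nat.le_self_pow (by omega) 2
    have h2 : 1 ≤ 20 * ρ * (84 * T) := Nat.one_le_iff_ne_zero.2 (by positivity)
    have h3 : 1 * (1 * (H * 2)) ≤ G * (20 * ρ * (84 * T) * (H * 2 ^ (84 * T))) :=
      Nat.mul_le_mul hG1 (Nat.mul_le_mul h2 (Nat.mul_le_mul_left _ h1))
    omega
  have hw1 : 1 ≤ w := by omega
  obtain ⟨a, h1, h2, h3, h4⟩ := exists_aux c (20 * ρ) (84 * T) (2 * T) J hc hJc
    (by rw [hJ]; positivity) (by rw [hJ]; exact le_of_eq (by ring))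
  rw [← hH] at h3
  have hze : (Q2 ^ T) ^ 2 ^ (20 * ρ) < z ^ (T - 20 * ρ) := by
    refine lt_of_pow_lt_pow_left₀ 2 (by positivity) ?_
    calc ((Q2 ^ T) ^ 2 ^ (20 * ρ)) ^ 2 = ((Q2 ^ 2 ^ (20 * ρ)) ^ 2) ^ T := by
          simp only [← pow_mul]; congr 1; ring
      _ < z ^ T := Nat.pow_lt_pow_left (by omega) (by omega)
      _ ≤ (z ^ (T - 20 * ρ)) ^ 2 := by
          rw [← pow_mul]; exact Nat.pow_le_pow_right hz1 (by omega)
  obtain ⟨μ, hμ, hV⟩ := exists_coeff_ne (T := T) (e := T - 20 * ρ) (z := z) a h1 h2 h3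
    (by omega) hH1 hHw hK (by omega) hze
  have hb := value_bound (D := 84 * T) a h3 hz1 hw1 μ
  set V := (taylor (z : ℤ)
    (∑ b : Fin (20 * ρ), C ((w : ℤ) ^ (b : ℕ)) * pol (84 * T) (a b))).coeff μ with hVdef
  have hb2 : V.natAbs ≤ 20 * ρ * (w ^ (20 * ρ) * (84 * T * (H * (2 * z) ^ (84 * T)))) := by
    rw [Int.abs_eq_natAbs] at hb
    exact_mod_cast hb
  have hd := prod_dvd J (fun i => Nat.gcd (w + i) ((z + i) ^ T)) V.natAbs c.factorial
    (fun i hi => gcd_dvd_value a (h4 i hi) hμ.le)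
    (fun i hi j hj hij => gcd_shift_dvd (hJc i hi) (hJc j hj) hij (Nat.gcd_dvd_left _ _)
      (Nat.gcd_dvd_left _ _))
  rw [hJ, ← hG] at hd
  have h5 := Nat.le_of_dvd (Nat.mul_pos hG1 (Int.natAbs_pos.2 hV)) hd
  have h6 : ∏ i ∈ J, Nat.gcd (w + i) ((z + i) ^ T) ≤ w ^ (1 + 104 * ρ) := by
    calc _ ≤ G * (20 * ρ * (w ^ (20 * ρ) * (84 * T * (H * (2 * z) ^ (84 * T))))) :=
          h5.trans (Nat.mul_le_mul_left _ hb2)
      _ = G * (20 * ρ * (84 * T) * (H * 2 ^ (84 * T))) * (w ^ (20 * ρ) * (z ^ T) ^ 84) := by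
          rw [mul_pow 2 z, ← pow_mul z, mul_comm T 84]; ring
      _ ≤ w * (w ^ (20 * ρ) * (w ^ ρ) ^ 84) :=
          Nat.mul_le_mul hjunk (Nat.mul_le_mul_left _ (Nat.pow_le_pow_left hzw _))
      _ = _ := by ring
  have h7 : ∏ _i ∈ J, w < ∏ i ∈ J, Nat.gcd (w + i) ((z + i) ^ T) ^ 4 :=
    prod_lt_prod_of_nonempty (fun _ _ => hw1) (fun i hi => lt_of_le_of_lt (by omega) (hl i hi))
      (card_pos.1 (by omega))
  rw [prod_const, hJ, prod_pow] at h7
  have h8 := h7.trans_le (Nat.pow_le_pow_left h6 4)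
  rw [← pow_mul] at h8
  exact absurd h8 (not_lt.2 (Nat.pow_le_pow_right hw1 (by omega)))

end Pool.Agent.P.MP_ed9a6e_lc.Sp
end

-- part Pool.Agent.P.MP_ed9a6e_lc.Arith
section

/-! Arithmetic structure of the numbers that look like `x ^ 2`. -/

set_option autoImplicit false

namespace Pool.Agent.P.MP_ed9a6e_lc

open Finset Real Pool.Agent.Lib.Baker

/-- `y` looks like the square of `x`. -/
def Psi (x y : ℕ) : Prop :=
  ∃ u w, x = u + 1 ∧ y = w + 1 ∧ ¬ y = x ∧ (∀ z, Nat.Coprime z x → Nat.Coprime z y) ∧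
    ∀ z, Nat.Coprime z w ↔ Nat.Coprime z u ∧ Nat.Coprime z (x + 1)

theorem exists_new_prime {z l : ℕ} (hz : 2 ≤ z) (hl : l.Prime) (h4 : l = 2 → ¬ 4 ∣ z + 1) :
    ∃ r : ℕ, r.Prime ∧ (r : ℤ) ∣ (z : ℤ) ^ l - 1 ∧ ¬ (r : ℤ) ∣ (z : ℤ) - 1 := by
  by_contra hcon
  push Not at hcon
  set Q := ∑ i ∈ range l, z ^ i with hQ
  have hQz : (Q : ℤ) * (z - 1) = (z : ℤ) ^ l - 1 := by
    rw [hQ]; push_cast; exact geom_sum_mul _ _
  have hlQ : l < Q := by
    have h1 : ∑ _i ∈ range l, 1 < Q := by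
      refine sum_lt_sum (fun i _ => Nat.one_le_pow _ _ (by omega)) ⟨1, mem_range.2 hl.one_lt, ?_⟩
      rw [pow_one]; omega
    simpa using h1
  have hr : ∀ {r : ℕ}, r.Prime → r ∣ Q → r = l ∧ (r : ℤ) ∣ (z : ℤ) - 1 := by
    intro r hr hd
    have h1 : (r : ℤ) ∣ Q := Int.natCast_dvd_natCast.2 hd
    have h2 := hcon r hr (hQz ▸ h1.mul_right _)
    have h3 : (r : ℤ) ∣ ∑ i ∈ range l, ((z : ℤ) ^ i - 1) :=
      dvd_sum fun i _ => h2.trans (by simpa using sub_dvd_pow_sub_pow (z : ℤ) 1 i)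
    have h4 : ∑ i ∈ range l, ((z : ℤ) ^ i - 1) = Q - l := by
      rw [sum_sub_distrib, hQ]; simp
    rw [h4] at h3
    have h5 : (r : ℤ) ∣ l := by simpa using h1.sub h3
    exact ⟨(Nat.prime_dvd_prime_iff_eq hr hl).1 (Int.natCast_dvd_natCast.1 h5), h2⟩
  have hpow := Nat.eq_prime_pow_of_unique_prime_dvd (n := Q) (p := l) (by omega)
    fun hd h => (hr hd h).1
  generalize Q.primeFactorsList.length = k at hpow
  have hk : 2 ≤ k := by
    by_contra hk
    have : l ^ k ≤ l ^ 1 := Nat.pow_le_pow_right hl.pos (by omega)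
    rw [pow_one] at this
    omega
  have hsq : l ^ 2 ∣ Q := hpow ▸ pow_dvd_pow l hk
  have hz1 := (hr hl ((dvd_pow_self l two_ne_zero).trans hsq)).2
  rcases hl.eq_two_or_odd' with h2 | hodd
  · refine h4 h2 ?_
    rw [hQ, h2] at hsq
    simpa [sum_range_succ, add_comm] using hsq
  · have hp : Prime (l : ℤ) := Nat.prime_iff_prime_int.1 hl
    have key := emultiplicity_geom_sum₂_eq_one (x := (z : ℤ)) (y := 1) hp hodd hz1 fun h =>
      hp.not_dvd_one (by simpa using h.sub hz1)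
    have h1 := (emultiplicity_eq_coe.1 (key.trans Nat.cast_one.symm)).2
    refine h1 ?_
    have h2 : ((l ^ 2 : ℕ) : ℤ) ∣ Q := Int.natCast_dvd_natCast.2 hsq
    simpa [hQ] using h2

theorem exp_eq_of_supp {x b : ℕ} (hx : 2 ≤ x) (hb : b ≠ 0)
    (h : ∀ r : ℕ, r.Prime → (r : ℤ) ∣ (x : ℤ) ^ b - 1 → (r : ℤ) ∣ (x : ℤ) ^ 2 - 1) :
    b = 1 ∨ b = 2 := by
  by_contra hcon
  push Not at hcon
  rcases Nat.even_or_odd' b with ⟨c, rfl | rfl⟩
  · obtain ⟨l, hl, k, rfl⟩ := Nat.exists_prime_and_dvd (show c ≠ 1 by omega)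
    obtain ⟨r, hr, h1, h2⟩ := exists_new_prime (z := x ^ 2) (by nlinarith) hl fun _ h4 => by
      have : x % 4 = 0 ∨ x % 4 = 1 ∨ x % 4 = 2 ∨ x % 4 = 3 := by omega
      have h5 : x ^ 2 % 4 = (x % 4) ^ 2 % 4 := Nat.pow_mod _ _ _
      rcases this with h | h | h | h <;> rw [h] at h5 <;> omega
    push_cast at h1 h2
    refine h2 (h r hr (h1.trans ?_))
    have := sub_dvd_pow_sub_pow (((x : ℤ) ^ 2) ^ l) 1 k
    rw [one_pow] at this
    rw [pow_mul, pow_mul]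
    exact this
  · obtain ⟨l, hl, k, hk⟩ := Nat.exists_prime_and_dvd (show 2 * c + 1 ≠ 1 by omega)
    have hl2 : l ≠ 2 := by rintro rfl; omega
    obtain ⟨r, hr, h1, h2⟩ := exists_new_prime hx hl fun h => absurd h hl2
    have h3 : (r : ℤ) ∣ (x : ℤ) ^ (2 * c + 1) - 1 := by
      refine h1.trans ?_
      have := sub_dvd_pow_sub_pow ((x : ℤ) ^ l) 1 k
      rwa [one_pow, ← pow_mul, ← hk] at this
    have h4 := h r hr h3
    have h5 : (r : ℤ) ∣ ((x : ℤ) ^ 2) ^ c - 1 :=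
      h4.trans (by simpa using sub_dvd_pow_sub_pow ((x : ℤ) ^ 2) 1 c)
    refine h2 ?_
    have e : (x : ℤ) - 1 = ((x : ℤ) ^ (2 * c + 1) - 1) - x * (((x : ℤ) ^ 2) ^ c - 1) := by ring
    rw [e]
    exact h3.sub (h5.mul_left _)

theorem psi_sq {x : ℕ} (hx : 2 ≤ x) : Psi x (x ^ 2) := by
  obtain ⟨u, rfl⟩ : ∃ u, x = u + 1 := ⟨x - 1, by omega⟩
  refine ⟨u, u * (u + 1 + 1), rfl, by ring, by nlinarith, fun z hz => hz.pow_right _, fun z => ?_⟩
  exact Nat.coprime_mul_iff_right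

theorem two_le_of_psi {x y : ℕ} (h : Psi x y) : 2 ≤ x := by
  obtain ⟨u, w, rfl, rfl, hne, -, h2⟩ := h
  by_contra hu
  obtain rfl : u = 0 := by omega
  have h3 := ((h2 (w + 1)).1 (by simp)).1
  rw [Nat.coprime_zero_right] at h3
  omega

theorem bad_structure {u y p q s x0 : ℕ} (h : Psi (u + 1) y) (hy : y ≠ (u + 1) ^ 2)
    (hp : p.Prime) (hpx : p ∣ u + 1) (hq : q.Prime) (hqu : q ∣ u)
    (h1 : u.primeFactors.card ≤ s) (h2 : (u + 1).primeFactors.card ≤ s)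
    (h3 : (u + 2).primeFactors.card ≤ s) (hl : log (u + 2 : ℕ) ≤ x0)
    (hx0 : 1296 * (3 * s + 1) ^ 4 ≤ x0) {B : ℕ}
    (hB : 2 * x0 ^ (5 * (3 * s) ^ 2 + 5 * (3 * s) + 9) ≤ B) :
    ∃ b ≤ B, ∃ m' ∈ (((u + 1) / p) ^ B).divisors,
      q ∈ ((m' : ℤ) - (((u + 1) / p : ℕ) : ℤ) ^ b).natAbs.primeFactors := by
  have hu := two_le_of_psi h
  obtain ⟨u', w, e1, rfl, hne, hc1, hc2⟩ := h
  obtain rfl : u = u' := by omega
  have hy1 : ∀ r : ℕ, r.Prime → r ∣ w + 1 → r ∣ u + 1 := fun r hr hd => by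
    by_contra hn
    exact (hr.coprime_iff_not_dvd.1 (hc1 r (hr.coprime_iff_not_dvd.2 hn))) hd
  have hw1 : ∀ r : ℕ, r.Prime → (r ∣ w ↔ r ∣ u ∨ r ∣ u + 2) := fun r hr => by
    have := hc2 r
    simp only [hr.coprime_iff_not_dvd] at this
    tauto
  have hw0 : w ≠ 0 := by
    rintro rfl
    obtain ⟨r, hr1, hr⟩ := Nat.exists_infinite_primes (u + 3)
    rcases (hw1 r hr).1 (dvd_zero r) with h | h
    · have := Nat.le_of_dvd (by omega) h; omega
    · have := Nat.le_of_dvd (by omega) h; omega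
  have hsub : (w * (w + 1)).primeFactors ⊆
      u.primeFactors ∪ (u + 1).primeFactors ∪ (u + 2).primeFactors := by
    intro r hr
    obtain ⟨hr1, hr2, -⟩ := Nat.mem_primeFactors.1 hr
    simp only [mem_union, Nat.mem_primeFactors]
    rcases (Nat.Prime.dvd_mul hr1).1 hr2 with h | h
    · rcases (hw1 r hr1).1 h with h | h
      · exact Or.inl (Or.inl ⟨hr1, h, by omega⟩)
      · exact Or.inr ⟨hr1, h, by omega⟩
    · exact Or.inl (Or.inr ⟨hr1, hy1 r hr1 h, by omega⟩)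
  have hlog := (log_succ_le (z := w) (s := 3 * s) (x := x0) (by omega)
    ((card_le_card hsub).trans (by
      have := card_union_le (u.primeFactors ∪ (u + 1).primeFactors) (u + 2).primeFactors
      have := card_union_le u.primeFactors (u + 1).primeFactors
      omega))
    (fun r hr => by
      have hr0 := (Nat.prime_of_mem_primeFactors hr).pos
      have : r ≤ u + 2 := by
        have := hsub hr
        simp only [mem_union] at this
        rcases this with (h | h) | h <;> have := Nat.le_of_mem_primeFactors h <;> omega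
      exact (log_le_log (by exact_mod_cast hr0) (by exact_mod_cast this)).trans hl) hx0).trans hB
  have hfac : ∀ r : ℕ, r.Prime → (w + 1).factorization r ≤ B := fun r hr => by
    refine le_trans (Nat.le_log_of_pow_le (by norm_num) ?_) hlog
    exact (Nat.pow_le_pow_left hr.two_le _).trans (Nat.ordProj_le r (by omega))
  obtain ⟨m, hm⟩ := hpx
  have hm0 : m ≠ 0 := by rintro rfl; omega
  have hdiv : (u + 1) / p = m := by rw [hm, Nat.mul_div_cancel_left _ hp.pos]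
  rw [hdiv]
  set b := (w + 1).factorization p with hb
  set m' := (w + 1) / p ^ b with hm'
  have hym : p ^ b * m' = w + 1 := Nat.ordProj_mul_ordCompl_eq_self (w + 1) p
  have hm'0 : m' ≠ 0 := by intro h; rw [h] at hym; omega
  have hpm' : ¬ p ∣ m' := Nat.not_dvd_ordCompl hp (by omega)
  refine ⟨b, hfac p hp, m', Nat.mem_divisors.2 ⟨?_, pow_ne_zero _ hm0⟩,
    Nat.mem_primeFactors.2 ⟨hq, ?_, ?_⟩⟩
  · refine (Nat.factorization_prime_le_iff_dvd hm'0 (pow_ne_zero _ hm0)).1 fun r hr => ?_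
    by_cases hd : r ∣ m'
    · have h4 : m' ∣ w + 1 := Dvd.intro_left _ hym
      have h5 := hy1 r hr (hd.trans h4)
      rw [hm] at h5
      have h6 : r ∣ m := by
        rcases (Nat.Prime.dvd_mul hr).1 h5 with h | h
        · exact absurd ((Nat.prime_dvd_prime_iff_eq hr hp).1 h ▸ hd) hpm'
        · exact h
      have h7 := hr.factorization_pos_of_dvd hm0 h6
      have h8 : m'.factorization r ≤ (w + 1).factorization r :=
        (Nat.factorization_le_iff_dvd hm'0 (by omega)).2 h4 r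
      have h9 := hfac r hr
      rw [Nat.factorization_pow]
      simp only [Finsupp.smul_apply, smul_eq_mul]
      nlinarith
    · rw [Nat.factorization_eq_zero_of_not_dvd hd]; exact Nat.zero_le _
  · rw [← Int.natCast_dvd]
    have h4 : (q : ℤ) ∣ u := Int.natCast_dvd_natCast.2 hqu
    have h5 : (q : ℤ) ∣ w := Int.natCast_dvd_natCast.2 ((hw1 q hq).2 (Or.inl hqu))
    have h6 : (q : ℤ) ∣ ((u : ℤ) + 1) ^ b - 1 :=
      h4.trans (by simpa using sub_dvd_pow_sub_pow ((u : ℤ) + 1) 1 b)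
    have e1 : (u : ℤ) + 1 = p * m := by exact_mod_cast hm
    have e2 : (p : ℤ) ^ b * m' = w + 1 := by exact_mod_cast hym
    have e : (m' : ℤ) - (m : ℤ) ^ b = (m : ℤ) ^ b * w - m' * (((u : ℤ) + 1) ^ b - 1) := by
      rw [e1, mul_pow]; linear_combination (m : ℤ) ^ b * e2
    rw [e]
    exact (h5.mul_left _).sub (h6.mul_left _)
  · rw [Int.natAbs_ne_zero, sub_ne_zero]
    intro h4
    have h5 : m' = m ^ b := by exact_mod_cast h4
    have h6 : w + 1 = (u + 1) ^ b := by rw [← hym, h5, hm, mul_pow]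
    have h7 : (w : ℤ) = ((u + 1 : ℕ) : ℤ) ^ b - 1 := by
      have : ((w + 1 : ℕ) : ℤ) = ((u + 1 : ℕ) : ℤ) ^ b := by exact_mod_cast h6
      push_cast at this ⊢; linarith
    rcases exp_eq_of_supp (x := u + 1) (b := b) hu (by
      intro h; rw [h, pow_zero] at h6; omega) (fun r hr hd => by
      rw [← h7, Int.natCast_dvd_natCast] at hd
      have e : ((u + 1 : ℕ) : ℤ) ^ 2 - 1 = (u * (u + 2) : ℕ) := by push_cast; ring
      rw [e, Int.natCast_dvd_natCast]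
      rcases (hw1 r hr).1 hd with h | h
      · exact h.mul_right _
      · exact h.mul_left _) with h | h
    · rw [h, pow_one] at h6; exact hne h6
    · rw [h] at h6; exact hy h6

end Pool.Agent.P.MP_ed9a6e_lc
end

-- part Pool.Agent.P.MP_ed9a6e_lc.Count
section

/-! Counting the exceptional `x`. -/

set_option autoImplicit false

namespace Pool.Agent.P.MP_ed9a6e_lc

open Finset Real Pool.Agent.Lib.Sieve

theorem sum_inv_le {M t : ℕ} (h : M < 2 ^ t) : ∑ m ∈ Ioc 0 M, (1 : ℝ) / m ≤ t + 1 := by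
  have h1 := harmonic_le_one_add_log M
  rw [harmonic_eq_sum_Icc] at h1
  push_cast at h1
  have h2 : log M ≤ t := by
    rcases Nat.eq_zero_or_pos M with rfl | h0
    · simp
    · have h3 : (M : ℝ) ≤ 2 ^ t := by exact_mod_cast h.le
      have h4 := log_le_log (by exact_mod_cast h0) h3
      rw [log_pow] at h4
      have := log_two_lt_d9
      have : (0 : ℝ) ≤ t := Nat.cast_nonneg _
      nlinarith
  simp only [one_div]
  have e : Ioc 0 M = Icc 1 M := by ext n; simp; omega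
  rw [e]; linarith

theorem card_primeFactors_le {n : ℕ} {k : ℕ} (h : n ≤ 2 ^ k) : n.primeFactors.card ≤ k := by
  rcases Nat.eq_zero_or_pos n with rfl | h0
  · simp
  have h1 : 2 ^ n.primeFactors.card ≤ ∏ p ∈ n.primeFactors, p :=
    pow_card_le_prod _ _ _ fun p hp => (Nat.prime_of_mem_primeFactors hp).two_le
  have h2 := Nat.le_of_dvd h0 (Nat.prod_primeFactors_dvd n)
  exact (Nat.pow_le_pow_iff_right (by norm_num)).1 (h1.trans (h2.trans h))

theorem card_omega_le {M t : ℕ} (s : ℕ) (h : M < 2 ^ t) :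
    (((Ioc 0 M).filter fun n => s < n.primeFactors.card).card : ℝ) * 2 ^ s ≤ M * (t + 1) := by
  have h1 : ∀ n ∈ (Ioc 0 M).filter fun n => s < n.primeFactors.card,
      2 ^ s ≤ ArithmeticFunction.sigma 0 n := by
    intro n hn
    obtain ⟨h1, h2⟩ := mem_filter.1 hn
    have h0 : n ≠ 0 := (mem_Ioc.1 h1).1.ne'
    rw [ArithmeticFunction.sigma_zero_apply, Nat.card_divisors h0]
    refine (Nat.pow_le_pow_right (by norm_num) h2.le).trans (pow_card_le_prod _ _ _ fun p hp => ?_)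
    have := (Nat.prime_of_mem_primeFactors hp).factorization_pos_of_dvd h0
      (Nat.dvd_of_mem_primeFactors hp)
    omega
  have h2 := card_nsmul_le_sum _ _ _ h1
  have h3 := h2.trans (sum_le_sum_of_subset (filter_subset _ _))
  rw [ArithmeticFunction.sum_Ioc_sigma0_eq_sum_div, smul_eq_mul] at h3
  have h4 : ((∑ n ∈ Ioc 0 M, M / n : ℕ) : ℝ) ≤ M * ∑ m ∈ Ioc 0 M, (1 : ℝ) / m := by
    rw [Nat.cast_sum, mul_sum]
    exact sum_le_sum fun n _ => Nat.cast_div_le.trans (le_of_eq (by ring))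
  have h5 : (((Ioc 0 M).filter fun n => s < n.primeFactors.card).card : ℝ) * 2 ^ s ≤
      ((∑ n ∈ Ioc 0 M, M / n : ℕ) : ℝ) := by exact_mod_cast h3
  exact h5.trans (h4.trans (mul_le_mul_of_nonneg_left (sum_inv_le h) (Nat.cast_nonneg _)))

open Classical in
theorem card_smooth_le (N i h : ℕ) :
    (((Ioc (2 ^ i) N).filter (fun n => ∀ p, p.Prime → p ∣ n → p ≤ 2 ^ h)).card : ℝ)
      * i ≤ 2 * N * (h + 2) := by
  set P := Nat.primesLE (2 ^ h) with hP
  have l2 := log_two_gt_d9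
  have h1 : ∀ n ∈ (Ioc (2 ^ i) N).filter (fun n => ∀ p, p.Prime → p ∣ n → p ≤ 2 ^ h),
      i * log 2 ≤ ∑ p ∈ P, (n.factorization p : ℝ) * log p := by
    intro n hn
    obtain ⟨h1, h2⟩ := mem_filter.1 hn
    rw [mem_Ioc] at h1
    calc i * log 2 = log ((2 ^ i : ℕ) : ℝ) := by push_cast; rw [log_pow]
      _ ≤ log n := log_le_log (by positivity) (by exact_mod_cast h1.1.le)
      _ = ∑ p ∈ n.primeFactors, (n.factorization p : ℝ) * log p := by
          rw [Real.log_nat_eq_sum_factorization]; rfl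
      _ ≤ _ := by
          refine sum_le_sum_of_subset_of_nonneg (fun p hp => ?_) fun p _ _ =>
            mul_nonneg (Nat.cast_nonneg _) (log_natCast_nonneg p)
          exact Nat.mem_primesLE.2 ⟨h2 p (Nat.prime_of_mem_primeFactors hp)
            (Nat.dvd_of_mem_primeFactors hp), Nat.prime_of_mem_primeFactors hp⟩
  have h2 : ∀ p ∈ P, ∑ n ∈ Ioc 0 N, (n.factorization p : ℝ) * log p ≤ 2 * N * (log p / p) := by
    intro p hp
    have hp' := Nat.prime_of_mem_primesLE hp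
    have h3 : ∑ n ∈ Ioc 0 N, n.factorization p = N.factorial.factorization p := by
      have : N.factorial = ∏ n ∈ Ioc 0 N, n := by
        rw [← prod_Ico_id_eq_factorial]; rfl
      rw [this, Nat.factorization_prod_apply fun n hn => (mem_Ioc.1 hn).1.ne']
    have h4 := Nat.factorization_factorial_le_div_pred hp' N
    have h5 : (2 : ℝ) ≤ p := by exact_mod_cast hp'.two_le
    have h6 : ((N.factorial.factorization p : ℕ) : ℝ) ≤ 2 * N / p := by
      calc _ ≤ ((N / (p - 1) : ℕ) : ℝ) := by exact_mod_cast h4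
        _ ≤ (N : ℝ) / ((p - 1 : ℕ) : ℝ) := Nat.cast_div_le
        _ = N / ((p : ℝ) - 1) := by rw [Nat.cast_sub hp'.one_le, Nat.cast_one]
        _ ≤ _ := by
            rw [div_le_div_iff₀ (by linarith) (by linarith)]
            have : (0 : ℝ) ≤ N := Nat.cast_nonneg _
            nlinarith
    rw [← sum_mul, ← Nat.cast_sum, h3]
    calc _ ≤ 2 * N / p * log p := mul_le_mul_of_nonneg_right h6 (log_natCast_nonneg p)
      _ = _ := by ring
  have h3 := sum_log_div_le (N := 2 ^ h) Nat.one_le_two_pow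
  have h4 : log ((2 ^ h : ℕ) : ℝ) + log 4 = (h + 2) * log 2 := by
    rw [show (4 : ℝ) = 2 ^ 2 by norm_num]; push_cast; rw [log_pow, log_pow]; push_cast; ring
  have h5 := card_nsmul_le_sum _ _ _ h1
  rw [nsmul_eq_mul] at h5
  have h6 : ∑ n ∈ (Ioc (2 ^ i) N).filter (fun n => ∀ p, p.Prime → p ∣ n → p ≤ 2 ^ h),
      ∑ p ∈ P, (n.factorization p : ℝ) * log p ≤ 2 * N * ((h + 2) * log 2) := by
    calc _ ≤ ∑ n ∈ Ioc 0 N, ∑ p ∈ P, (n.factorization p : ℝ) * log p := by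
          refine sum_le_sum_of_subset_of_nonneg ((filter_subset _ _).trans
            (Ioc_subset_Ioc_left (Nat.zero_le _))) fun n _ _ => sum_nonneg fun p _ =>
            mul_nonneg (Nat.cast_nonneg _) (log_natCast_nonneg p)
      _ ≤ ∑ p ∈ P, 2 * N * (log p / p) := by rw [sum_comm]; exact sum_le_sum h2
      _ ≤ _ := by rw [← mul_sum, ← h4]; exact mul_le_mul_of_nonneg_left h3 (by positivity)
  have h7 := h5.trans h6
  apply le_of_mul_le_mul_right _ (show 0 < log 2 by linarith)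
  linarith

theorem card_prog_le {M m q T : ℕ} (hm : 0 < m) (hT : 0 < T) (hq : T < q) (hmT : m * T ≤ M) :
    (((range M).filter fun u => m ∣ u + 1 ∧ q ∣ u).card : ℝ) ≤ 2 * M / T * (1 / m) := by
  have h1 : ((range M).filter fun u => m ∣ u + 1 ∧ q ∣ u).card ≤ (range (M / (m * q) + 1)).card := by
    refine card_le_card_of_injOn (fun u => u / (m * q)) (fun u hu => ?_) fun u hu v hv huv => ?_
    · have := mem_range.1 (mem_filter.1 (mem_coe.1 hu)).1
      exact mem_coe.2 (mem_range.2 (Nat.lt_succ_of_le (Nat.div_le_div_right this.le)))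
    · obtain ⟨-, h1, h2⟩ := mem_filter.1 (mem_coe.1 hu)
      obtain ⟨-, h3, h4⟩ := mem_filter.1 (mem_coe.1 hv)
      have hc : Nat.Coprime m q := Nat.Coprime.coprime_dvd_left h1
        (Nat.Coprime.coprime_dvd_right h2 (by simp))
      have a1 : u ≡ v [MOD m] := Nat.ModEq.add_right_cancel' 1
        ((Nat.modEq_zero_iff_dvd.2 h1).trans (Nat.modEq_zero_iff_dvd.2 h3).symm)
      have a2 : u ≡ v [MOD q] :=
        (Nat.modEq_zero_iff_dvd.2 h2).trans (Nat.modEq_zero_iff_dvd.2 h4).symm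
      have a3 : u % (m * q) = v % (m * q) := (Nat.modEq_and_modEq_iff_modEq_mul hc).1 ⟨a1, a2⟩
      rw [← Nat.div_add_mod u (m * q), ← Nat.div_add_mod v (m * q), a3]
      exact congrArg (fun k => m * q * k + v % (m * q)) huv
  rw [card_range] at h1
  have hm' : (0 : ℝ) < m := by exact_mod_cast hm
  have hT' : (0 : ℝ) < T := by exact_mod_cast hT
  have hq' : (T : ℝ) ≤ q := by exact_mod_cast hq.le
  have hM : (m : ℝ) * T ≤ M := by exact_mod_cast hmT
  have h2 : ((M / (m * q) : ℕ) : ℝ) ≤ M / (m * T) := by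
    refine Nat.cast_div_le.trans ?_
    push_cast
    gcongr
  have h3 : (1 : ℝ) ≤ M / (m * T) := by rwa [le_div_iff₀ (by positivity), one_mul]
  have h4 : (((range M).filter fun u => m ∣ u + 1 ∧ q ∣ u).card : ℝ) ≤
      ((M / (m * q) : ℕ) : ℝ) + 1 := by exact_mod_cast h1
  have e : 2 * (M : ℝ) / T * (1 / m) = 2 * (M / (m * T)) := by field_simp
  rw [e]; linarith

/-- The main exceptional set. -/
def mainSet (M T s B : ℕ) : Finset ℕ :=
  ((Ioc 0 M).filter fun m => m.primeFactors.card ≤ s ∧ m * T ≤ M).biUnion fun m =>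
    (range (B + 1)).biUnion fun b => (m ^ B).divisors.biUnion fun m' =>
      ((((m' : ℤ) - (m : ℤ) ^ b).natAbs.primeFactors).filter fun q => T < q).biUnion fun q =>
        (range M).filter fun u => m ∣ u + 1 ∧ q ∣ u

theorem card_biUnion_le_real {α β : Type*} [DecidableEq β] (S : Finset α) (f : α → Finset β)
    {c k : ℝ} (hc : 0 ≤ c) (hk : (S.card : ℝ) ≤ k) (h : ∀ a ∈ S, ((f a).card : ℝ) ≤ c) :
    ((S.biUnion f).card : ℝ) ≤ k * c := by
  have h1 : ((S.biUnion f).card : ℝ) ≤ ∑ a ∈ S, ((f a).card : ℝ) := by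
    exact_mod_cast card_biUnion_le
  refine h1.trans ((sum_le_card_nsmul _ _ c h).trans ?_)
  rw [nsmul_eq_mul]
  exact mul_le_mul_of_nonneg_right hk hc

theorem card_mainSet_le {M T s B t : ℕ} (hT : 0 < T) (hM : M < 2 ^ t) (ht : 1 ≤ t) :
    ((mainSet M T s B).card : ℝ) ≤ ((B * t + 1 : ℕ) : ℝ) ^ (s + 2) * (2 * M / T) * (t + 1) := by
  set D : ℝ := ((B * t + 1 : ℕ) : ℝ) with hD
  have hD0 : 0 ≤ D := Nat.cast_nonneg _
  have h1 : ∀ m ∈ (Ioc 0 M).filter fun m => m.primeFactors.card ≤ s ∧ m * T ≤ M,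
      (((range (B + 1)).biUnion fun b => (m ^ B).divisors.biUnion fun m' =>
      ((((m' : ℤ) - (m : ℤ) ^ b).natAbs.primeFactors).filter fun q => T < q).biUnion fun q =>
        (range M).filter fun u => m ∣ u + 1 ∧ q ∣ u).card : ℝ) ≤
        D ^ (s + 2) * (2 * M / T) * (1 / m) := by
    intro m hm
    obtain ⟨h1, h2, h3⟩ := mem_filter.1 hm
    obtain ⟨hm0, hmM⟩ := mem_Ioc.1 h1
    have hmt : m ≤ 2 ^ t := by omega
    have hmB : m ^ B ≤ 2 ^ (B * t) := by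
      rw [mul_comm, pow_mul]; exact Nat.pow_le_pow_left hmt _
    have e : D ^ (s + 2) * (2 * M / T) * (1 / m) = D * (D ^ s * (D * (2 * M / T * (1 / m)))) := by
      ring
    rw [e]
    refine card_biUnion_le_real _ _ (by positivity) ?_ fun b hb =>
      card_biUnion_le_real _ _ (by positivity) ?_ fun m' hm' =>
        card_biUnion_le_real _ _ (by positivity) ?_ fun q hq =>
          card_prog_le hm0 hT (mem_filter.1 hq).2 h3
    · rw [card_range, hD]
      exact_mod_cast (by nlinarith : B + 1 ≤ B * t + 1)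
    · have h4 : (m ^ B).divisors.card ≤ (B * t + 1) ^ s := by
        rw [Nat.card_divisors (by positivity)]
        refine (prod_le_pow_card _ _ (B * t + 1) fun p hp => ?_).trans
          (Nat.pow_le_pow_right (by omega) (le_trans (card_le_card fun p hp => ?_) h2))
        · have h5 : 2 ^ (m ^ B).factorization p ≤ 2 ^ (B * t) :=
            (Nat.pow_le_pow_left (Nat.prime_of_mem_primeFactors hp).two_le _).trans
              ((Nat.ordProj_le p (by positivity)).trans hmB)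
          have := (Nat.pow_le_pow_iff_right (by norm_num)).1 h5
          omega
        · obtain ⟨a1, a2, -⟩ := Nat.mem_primeFactors.1 hp
          exact Nat.mem_primeFactors.2 ⟨a1, a1.dvd_of_dvd_pow a2, hm0.ne'⟩
      rw [hD]; exact_mod_cast h4
    · have h4 : m' ≤ 2 ^ (B * t) := (Nat.divisor_le hm').trans hmB
      have h5 : m ^ b ≤ 2 ^ (B * t) :=
        (Nat.pow_le_pow_right hm0 (Nat.lt_succ_iff.1 (mem_range.1 hb))).trans hmB
      have h6 : ((m' : ℤ) - (m : ℤ) ^ b).natAbs ≤ 2 ^ (B * t) := by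
        rw [← Nat.cast_pow]; omega
      have h7 := (card_filter_le _ fun q => T < q).trans (card_primeFactors_le h6)
      rw [hD]; exact_mod_cast h7.trans (Nat.le_succ _)
  have h2 : ((mainSet M T s B).card : ℝ) ≤ ∑ m ∈ (Ioc 0 M).filter
      fun m => m.primeFactors.card ≤ s ∧ m * T ≤ M, D ^ (s + 2) * (2 * M / T) * (1 / m) :=
    le_trans (by rw [← Nat.cast_sum]; exact Nat.cast_le.2 card_biUnion_le) (sum_le_sum h1)
  refine h2.trans ?_
  rw [← mul_sum]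
  refine mul_le_mul_of_nonneg_left (le_trans ?_ (sum_inv_le hM)) (by positivity)
  exact sum_le_sum_of_subset_of_nonneg (filter_subset _ _) fun m _ _ => by positivity

/-- `x` has a false square. -/
def Bad (x : ℕ) : Prop := x < 2 ∨ ∃ y, Psi x y ∧ y ≠ x ^ 2

open Classical in
theorem card_bad_le {M i h s x0 B : ℕ} (hl : log M ≤ x0) (hx0 : 1296 * (3 * s + 1) ^ 4 ≤ x0)
    (hB : 2 * x0 ^ (5 * (3 * s) ^ 2 + 5 * (3 * s) + 9) ≤ B) :
    ((range (M - 1)).filter fun u => Bad (u + 1)).card ≤ 2 ^ i + 1 +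
      3 * ((Ioc 0 M).filter fun n => s < n.primeFactors.card).card +
      2 * ((Ioc (2 ^ i) M).filter (fun n => ∀ p, p.Prime → p ∣ n → p ≤ 2 ^ h)).card +
      (mainSet M (2 ^ h) s B).card := by
  set A := (Ioc 0 M).filter fun n => s < n.primeFactors.card with hA
  set C := (Ioc (2 ^ i) M).filter (fun n => ∀ p, p.Prime → p ∣ n → p ≤ 2 ^ h) with hC
  have hsub : ((range (M - 1)).filter fun u => Bad (u + 1)) ⊆ range (2 ^ i + 1) ∪
      (A ∪ A.image (· - 1) ∪ A.image (· - 2)) ∪ (C ∪ C.image (· - 1)) ∪ mainSet M (2 ^ h) s B := by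
    intro u hu
    obtain ⟨h1, h2⟩ := mem_filter.1 hu
    have huM := mem_range.1 h1
    by_contra hcon
    simp only [mem_union, not_or, mem_range, not_lt, mem_image, not_exists, not_and] at hcon
    obtain ⟨⟨⟨c0, ⟨c1, c2⟩, c3⟩, c4, c5⟩, c6⟩ := hcon
    have hpos : 0 < 2 ^ i := by positivity
    have hAle : ∀ n, 0 < n → n ≤ M → n ∉ A → n.primeFactors.card ≤ s := fun n a1 a2 a3 => by
      by_contra hn
      exact a3 (mem_filter.2 ⟨mem_Ioc.2 ⟨a1, a2⟩, by omega⟩)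
    have hCle : ∀ n, 2 ^ i < n → n ≤ M → n ∉ C → ∃ p, p.Prime ∧ p ∣ n ∧ 2 ^ h < p :=
      fun n a1 a2 a3 => by
        by_contra hn
        push Not at hn
        exact a3 (mem_filter.2 ⟨mem_Ioc.2 ⟨a1, a2⟩, hn⟩)
    have d1 := hAle u (by omega) (by omega) c1
    have d2 := hAle (u + 1) (by omega) (by omega) fun h => c2 _ h rfl
    have d3 := hAle (u + 2) (by omega) (by omega) fun h => c3 _ h rfl
    obtain ⟨q, hq, hqu, hqT⟩ := hCle u (by omega) (by omega) c4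
    obtain ⟨p, hp, hpu, hpT⟩ := hCle (u + 1) (by omega) (by omega) fun h => c5 _ h rfl
    rcases h2 with h2 | ⟨y, hy, hne⟩
    · omega
    obtain ⟨b, hb, m', hm', hq'⟩ := bad_structure hy hne hp hpu hq hqu d1 d2 d3
      ((log_le_log (by positivity) (by exact_mod_cast (by omega : u + 2 ≤ M))).trans hl) hx0 hB
    have hdvd : (u + 1) / p ∣ u + 1 := Nat.div_dvd_of_dvd hpu
    have hmul : (u + 1) / p * p = u + 1 := Nat.div_mul_cancel hpu
    refine c6 (mem_biUnion.2 ⟨(u + 1) / p, mem_filter.2 ⟨mem_Ioc.2 ⟨?_, ?_⟩, ?_, ?_⟩,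
      mem_biUnion.2 ⟨b, mem_range.2 (by omega), mem_biUnion.2 ⟨m', hm', mem_biUnion.2
        ⟨q, mem_filter.2 ⟨hq', hqT⟩, mem_filter.2 ⟨mem_range.2 (by omega), hdvd, hqu⟩⟩⟩⟩⟩)
    · exact Nat.pos_of_dvd_of_pos hdvd (by omega)
    · exact (Nat.div_le_self _ _).trans (by omega)
    · exact (card_le_card (Nat.primeFactors_mono hdvd (by omega))).trans d2
    · exact (Nat.mul_le_mul_left _ hpT.le).trans (by omega)
  refine (card_le_card hsub).trans ?_
  have a1 := card_union_le (range (2 ^ i + 1) ∪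
      (A ∪ A.image (· - 1) ∪ A.image (· - 2)) ∪ (C ∪ C.image (· - 1))) (mainSet M (2 ^ h) s B)
  have a2 := card_union_le (range (2 ^ i + 1) ∪
      (A ∪ A.image (· - 1) ∪ A.image (· - 2))) (C ∪ C.image (· - 1))
  have a3 := card_union_le (range (2 ^ i + 1)) (A ∪ A.image (· - 1) ∪ A.image (· - 2))
  have a4 := card_union_le (A ∪ A.image (· - 1)) (A.image (· - 2))
  have a5 := card_union_le A (A.image (· - 1))
  have a6 := card_union_le C (C.image (· - 1))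
  have a7 : (A.image (· - 1)).card ≤ A.card := card_image_le
  have a8 : (A.image (· - 2)).card ≤ A.card := card_image_le
  have a9 : (C.image (· - 1)).card ≤ C.card := card_image_le
  rw [card_range] at a3
  omega

end Pool.Agent.P.MP_ed9a6e_lc
end

-- part Pool.Agent.P.MP_ed9a6e_lc.Main
section

/-! Density of the exceptional set, and definability. -/

set_option autoImplicit false

namespace Pool.Agent.P.MP_ed9a6e_lc

open Finset Real Filter Topology

theorem pow_aux {r : ℕ} (hr : 1800 ≤ r) : 1296 * (3 * (2 * r) + 1) ^ 4 ≤ 2 ^ (2 * r) := by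
  have h1 : ∀ k : ℕ, 40 ≤ k → 36 * (6 * k + 1) ^ 2 ≤ 2 ^ k := by
    intro k hk
    induction k, hk using Nat.le_induction with
    | base => norm_num
    | succ k hk ih => rw [pow_succ 2 k]; nlinarith
  have h2 := Nat.pow_le_pow_left (h1 r (by omega)) 2
  calc 1296 * (3 * (2 * r) + 1) ^ 4 = (36 * (6 * r + 1) ^ 2) ^ 2 := by ring
    _ ≤ (2 ^ r) ^ 2 := h2
    _ = _ := by rw [← pow_mul, mul_comm]

open Classical in
theorem card_bad_le_mul {N : ℕ} (hr : 1800 ≤ Nat.log 2 (Nat.log 2 N + 1) + 1) :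
    (((range N).filter Bad).card : ℝ) ≤ 60 * (((Nat.log 2 (Nat.log 2 N + 1) + 1 : ℕ) : ℝ) ^ 5 /
      2 ^ (Nat.log 2 (Nat.log 2 N + 1) + 1)) * N := by
  set t := Nat.log 2 N + 1 with ht
  set r := Nat.log 2 t + 1 with hrdef
  have hN0 : N ≠ 0 := by rintro rfl; simp [ht] at hrdef; omega
  have hNt : N < 2 ^ t := Nat.lt_pow_succ_log_self (by norm_num) N
  have htr : t < 2 ^ r := Nat.lt_pow_succ_log_self (by norm_num) t
  have hNt' : 2 ^ t ≤ 2 * N := by
    rw [ht, pow_succ']; exact Nat.mul_le_mul_left _ (Nat.pow_log_le_self 2 hN0)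
  have htr' : 2 ^ r ≤ 2 * t := by
    rw [hrdef, pow_succ']; exact Nat.mul_le_mul_left _ (Nat.pow_log_le_self 2 (by omega))
  have htN : t ≤ N := by
    have := Nat.log_lt_self 2 hN0
    omega
  clear_value r t
  clear hrdef ht
  have h4r : 4 * r ≤ 2 ^ r := by
    have h1 : ∀ k : ℕ, 4 ≤ k → 4 * k ≤ 2 ^ k := by
      intro k hk
      induction k, hk using Nat.le_induction with
      | base => norm_num
      | succ k hk ih => rw [pow_succ 2 k]; omega
    exact h1 r (by omega)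
  have hrt : 2 * r ≤ t := by omega
  have hrr : 2 ^ r ≤ 2 ^ (2 * r) := Nat.pow_le_pow_right (by norm_num) (by omega)
  have hr2 : r ≤ r ^ 2 := Nat.le_self_pow (by norm_num) _
  have hr3 : r ^ 2 ≤ r ^ 3 := Nat.pow_le_pow_right (by omega) (by norm_num)
  have key := card_bad_le (M := N) (i := t - r) (h := r ^ 5) (s := 2 * r) (x0 := 2 ^ (2 * r))
    (B := 2 ^ (439 * r ^ 3))
    (by
      have h1 : (N : ℝ) ≤ 2 ^ t := by exact_mod_cast hNt.le
      have h2 := log_le_log (by positivity) h1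
      rw [log_pow] at h2
      have h3 : (t : ℝ) ≤ (2 ^ (2 * r) : ℕ) := by exact_mod_cast (by omega : t ≤ 2 ^ (2 * r))
      have := log_two_lt_d9
      have : (0 : ℝ) ≤ t := Nat.cast_nonneg _
      nlinarith)
    (pow_aux hr)
    (by
      rw [← pow_mul, ← pow_succ']
      refine Nat.pow_le_pow_right (by norm_num) ?_
      have e : 2 * r * (5 * (3 * (2 * r)) ^ 2 + 5 * (3 * (2 * r)) + 9) + 1 =
        360 * r ^ 3 + 60 * r ^ 2 + 18 * r + 1 := by ring
      omega)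
  have h0 : ((range N).filter Bad).card ≤
      1 + ((range (N - 1)).filter fun u => Bad (u + 1)).card := by
    refine le_trans (card_le_card (t := {0} ∪ ((range (N - 1)).filter fun u =>
      Bad (u + 1)).image (· + 1)) fun x hx => ?_) ((card_union_le _ _).trans ?_)
    · obtain ⟨h1, h2⟩ := mem_filter.1 hx
      obtain _ | u := x
      · simp
      · refine mem_union_right _ (mem_image.2 ⟨u, mem_filter.2 ⟨mem_range.2 ?_, h2⟩, rfl⟩)
        have := mem_range.1 h1; omega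
    · rw [card_singleton]; exact Nat.add_le_add_left card_image_le _
  have k1 := card_omega_le (2 * r) hNt
  have k2 := card_smooth_le N (t - r) (r ^ 5)
  have k3 := card_mainSet_le (T := 2 ^ r ^ 5) (s := 2 * r) (B := 2 ^ (439 * r ^ 3))
    (by positivity) hNt (by omega)
  have k0 := h0.trans (Nat.add_le_add_left key 1)
  generalize ((Ioc 0 N).filter fun n => 2 * r < n.primeFactors.card).card = a1 at k0 k1
  generalize ((Ioc (2 ^ (t - r)) N).filter
    (fun n => ∀ p, p.Prime → p ∣ n → p ≤ 2 ^ r ^ 5)).card = a2 at k0 k2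
  generalize (mainSet N (2 ^ r ^ 5) (2 * r) (2 ^ (439 * r ^ 3))).card = a3 at k0 k3
  generalize ((range N).filter Bad).card = a0 at k0
  set R : ℝ := 2 ^ r with hR
  have hR0 : 0 < R := by positivity
  have hN : (0 : ℝ) ≤ N := Nat.cast_nonneg _
  have htR : (t : ℝ) + 1 ≤ R := by rw [hR]; exact_mod_cast htr
  have hRt : R ≤ 2 * t := by rw [hR]; exact_mod_cast htr'
  have htN' : (t : ℝ) ≤ N := by exact_mod_cast htN
  have b0 : ((2 ^ (t - r) : ℕ) : ℝ) * R ≤ 2 * N := by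
    have : 2 ^ (t - r) * 2 ^ r ≤ 2 * N := by
      rw [← pow_add, Nat.sub_add_cancel (by omega)]; exact hNt'
    rw [hR]; exact_mod_cast this
  have b1 : (a1 : ℝ) * R ≤ N := by
    rw [pow_mul', ← hR] at k1
    have : (N : ℝ) * (t + 1) ≤ N * R := mul_le_mul_of_nonneg_left htR hN
    exact le_of_mul_le_mul_right (by nlinarith) hR0
  have b2 : (a2 : ℝ) * R ≤ 8 * N * ((r : ℝ) ^ 5 + 2) := by
    have h1 : R ≤ 4 * ((t - r : ℕ) : ℝ) := by
      rw [hR]; exact_mod_cast (by omega : 2 ^ r ≤ 4 * (t - r))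
    have h2 : (0 : ℝ) ≤ a2 := Nat.cast_nonneg _
    push_cast at k2
    nlinarith
  have b3 : (a3 : ℝ) * R ≤ N := by
    have h1 : 2 ^ (439 * r ^ 3) * t + 1 ≤ 2 ^ (440 * r ^ 3) := by
      have h2 : 2 ^ r ≤ 2 ^ r ^ 3 := Nat.pow_le_pow_right (by norm_num) (by omega)
      have h3 : 1 ≤ 2 ^ (439 * r ^ 3) := Nat.one_le_two_pow
      calc 2 ^ (439 * r ^ 3) * t + 1 ≤ 2 ^ (439 * r ^ 3) * (t + 1) := by nlinarith
        _ ≤ 2 ^ (439 * r ^ 3) * 2 ^ r ^ 3 := Nat.mul_le_mul_left _ (by omega)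
        _ = _ := by rw [← pow_add]; congr 1; ring
    have h2 : (2 ^ (439 * r ^ 3) * t + 1) ^ (2 * r + 2) * 2 * 2 ^ r * 2 ^ r ≤ 2 ^ r ^ 5 := by
      calc _ ≤ (2 ^ (440 * r ^ 3)) ^ (2 * r + 2) * 2 * 2 ^ r * 2 ^ r := by gcongr
        _ = 2 ^ (440 * r ^ 3 * (2 * r + 2) + 1 + r + r) := by
            rw [← pow_mul, ← pow_succ, ← pow_add, ← pow_add]
        _ ≤ _ := by
            refine Nat.pow_le_pow_right (by norm_num) ?_
            have h5 : r ^ 3 ≤ r ^ 4 := Nat.pow_le_pow_right (by omega) (by norm_num)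
            have h6 : 1800 * r ^ 4 ≤ r ^ 5 := by rw [pow_succ' r 4]; gcongr
            have e : 440 * r ^ 3 * (2 * r + 2) = 880 * r ^ 4 + 880 * r ^ 3 := by ring
            omega
    have h3 : ((2 ^ (439 * r ^ 3) * t + 1 : ℕ) : ℝ) ^ (2 * r + 2) * 2 * R * R ≤
        ((2 ^ r ^ 5 : ℕ) : ℝ) := by rw [hR]; exact_mod_cast h2
    generalize ((2 ^ (439 * r ^ 3) * t + 1 : ℕ) : ℝ) ^ (2 * r + 2) = D at k3 h3
    have hT : (0 : ℝ) < ((2 ^ r ^ 5 : ℕ) : ℝ) := by positivity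
    generalize ((2 ^ r ^ 5 : ℕ) : ℝ) = T at k3 h3 hT
    have h4 : D * (2 * N / T) * (t + 1) * R = (D * (N / T)) * (2 * (t + 1) * R) := by ring
    have h5 : 0 ≤ D * (2 * N / T) * (t + 1) := le_trans (Nat.cast_nonneg _) k3
    have h6 : 0 ≤ D * (2 * N / T) := by
      have : (0 : ℝ) < t + 1 := by positivity
      exact nonneg_of_mul_nonneg_left h5 this
    calc (a3 : ℝ) * R ≤ D * (2 * N / T) * (t + 1) * R := mul_le_mul_of_nonneg_right k3 hR0.le
      _ ≤ D * (2 * N / T) * R * R := by gcongr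
      _ = (D * 2 * R * R) * (N / T) := by ring
      _ ≤ T * (N / T) := mul_le_mul_of_nonneg_right h3 (by positivity)
      _ = N := by field_simp
  have k4 : (a0 : ℝ) ≤ 1 + (((2 ^ (t - r) : ℕ) : ℝ) + 1 + 3 * a1 + 2 * a2 + a3) := by
    exact_mod_cast k0
  have hr5 : (1 : ℝ) ≤ (r : ℝ) ^ 5 := one_le_pow₀ (by exact_mod_cast (by omega : 1 ≤ r))
  have k5 : (a0 : ℝ) * R ≤ 60 * (r : ℝ) ^ 5 * N := by
    have := mul_le_mul_of_nonneg_right k4 hR0.le
    have h7 : (N : ℝ) * 1 ≤ N * (r : ℝ) ^ 5 := mul_le_mul_of_nonneg_left hr5 hN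
    nlinarith
  rw [← le_div_iff₀ hR0] at k5
  refine k5.trans (le_of_eq ?_)
  ring

theorem tendsto_log_succ : Tendsto (fun n => Nat.log 2 n + 1) atTop atTop := by
  refine tendsto_atTop_atTop.2 fun k => ⟨2 ^ k, fun n hn => ?_⟩
  exact (Nat.le_log_of_pow_le (by norm_num) hn).trans (Nat.le_succ _)

open Classical in
theorem tendsto_bad :
    Tendsto (fun N : ℕ => (((range N).filter Bad).card : ℝ) / N) atTop (𝓝 0) := by
  have h1 := tendsto_log_succ.comp tendsto_log_succ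
  have h2 := ((tendsto_pow_const_div_const_pow_of_one_lt 5 (one_lt_two (α := ℝ))).comp
    h1).const_mul 60
  rw [mul_zero] at h2
  refine squeeze_zero' (Eventually.of_forall fun N => by positivity) ?_ h2
  filter_upwards [h1.eventually_ge_atTop 1800, eventually_gt_atTop 0] with N hN h0
  rw [div_le_iff₀ (by exact_mod_cast h0)]
  exact card_bad_le_mul hN

open FirstOrder FirstOrder.Language

/-- The language with one unary function symbol and one binary relation symbol. -/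
def Lsc : FirstOrder.Language.{0, 0} := ⟨fun n => PLift (n = 1), fun n => PLift (n = 2)⟩

/-- Successor and coprimality. -/
@[reducible] def str : Lsc.Structure ℕ where
  funMap := fun {n} f v => v ⟨0, by have := f.down; omega⟩ + 1
  RelMap := fun {n} r v =>
    Nat.Coprime (v ⟨0, by have := r.down; omega⟩) (v ⟨1, by have := r.down; omega⟩)

attribute [local instance] str

/-- Term functions. -/
def TD {α : Type} (f : (α → ℕ) → ℕ) : Prop := ∃ t : Lsc.Term α, ∀ v : α → ℕ, t.realize v = f v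

/-- Definable predicates. -/
def D {α : Type} (P : (α → ℕ) → Prop) : Prop := (∅ : Set ℕ).Definable Lsc {v | P v}

variable {α : Type}

theorem TD.var (i : α) : TD (fun v : α → ℕ => v i) := ⟨Term.var i, fun _ => rfl⟩

theorem TD.succ {f : (α → ℕ) → ℕ} (hf : TD f) : TD (fun v => f v + 1) := by
  obtain ⟨s, hs⟩ := hf
  refine ⟨Term.func (l := 1) ⟨rfl⟩ ![s], fun v => ?_⟩
  show s.realize v + 1 = _
  rw [hs]

theorem TD.up {f : (α → ℕ) → ℕ} (hf : TD f) :
    TD (fun w : Option α → ℕ => f (fun i => w (some i))) := by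
  obtain ⟨s, hs⟩ := hf
  refine ⟨s.relabel some, fun v => ?_⟩
  rw [Term.realize_relabel, hs]
  rfl

theorem D.eq {f g : (α → ℕ) → ℕ} (hf : TD f) (hg : TD g) : D (fun v => f v = g v) := by
  obtain ⟨s, hs⟩ := hf
  obtain ⟨t, ht⟩ := hg
  unfold D
  rw [Set.empty_definable_iff]
  refine ⟨s.equal t, ?_⟩
  ext v
  simp [hs, ht]

theorem D.cop {f g : (α → ℕ) → ℕ} (hf : TD f) (hg : TD g) :
    D (fun v => Nat.Coprime (f v) (g v)) := by
  obtain ⟨s, hs⟩ := hf
  obtain ⟨t, ht⟩ := hg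
  unfold D
  rw [Set.empty_definable_iff]
  refine ⟨Relations.formula₂ (L := Lsc) ⟨rfl⟩ s t, ?_⟩
  ext v
  simp only [Set.mem_ofPred_eq, Formula.realize_rel₂]
  rw [← hs, ← ht]
  rfl

theorem D.and {P Q : (α → ℕ) → Prop} (hP : D P) (hQ : D Q) : D (fun v => P v ∧ Q v) :=
  Set.Definable.inter hP hQ

theorem D.not {P : (α → ℕ) → Prop} (hP : D P) : D (fun v => ¬ P v) :=
  Set.Definable.compl hP

theorem D.of_iff {P Q : (α → ℕ) → Prop} (hP : D P) (h : ∀ v, P v ↔ Q v) : D Q := by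
  rwa [← funext fun v => propext (h v)]

theorem D.imp {P Q : (α → ℕ) → Prop} (hP : D P) (hQ : D Q) : D (fun v => P v → Q v) :=
  (hP.and hQ.not).not.of_iff fun v => by tauto

theorem D.iff {P Q : (α → ℕ) → Prop} (hP : D P) (hQ : D Q) : D (fun v => P v ↔ Q v) :=
  ((hP.imp hQ).and (hQ.imp hP)).of_iff fun v => by tauto

theorem D.ex {P : (α → ℕ) → ℕ → Prop}
    (h : D (fun w : Option α → ℕ => P (fun i => w (some i)) (w none))) :
    D (fun v => ∃ x, P v x) := by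
  have h1 : (∅ : Set ℕ).Definable Lsc
      ((fun g : α ⊕ Unit → ℕ => g ∘ (fun o : Option α => o.elim (Sum.inr ()) Sum.inl)) ⁻¹'
        {w : Option α → ℕ | P (fun i => w (some i)) (w none)}) :=
    Set.Definable.preimage_comp _ h
  have h2 := Set.Definable.exists_of_finite h1
  exact D.of_iff h2 fun v => ⟨fun ⟨u, hu⟩ => ⟨u (), hu⟩, fun ⟨x, hx⟩ => ⟨fun _ => x, hx⟩⟩

theorem D.all {P : (α → ℕ) → ℕ → Prop}
    (h : D (fun w : Option α → ℕ => P (fun i => w (some i)) (w none))) :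
    D (fun v => ∀ x, P v x) :=
  (D.ex (P := fun v x => ¬ P v x) h.not).not.of_iff fun v => by simp

theorem D.psi {f g : (α → ℕ) → ℕ} (hf : TD f) (hg : TD g) : D (fun v => Psi (f v) (g v)) :=
  D.ex (D.ex (D.and (D.eq hf.up.up (TD.var (some none)).succ)
    (D.and (D.eq hg.up.up (TD.var none).succ) (D.and (D.eq hg.up.up hf.up.up).not
      (D.and (D.all (D.imp (D.cop (TD.var none) hf.up.up.up) (D.cop (TD.var none) hg.up.up.up)))
        (D.all (D.iff (D.cop (TD.var none) (TD.var (some none)))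
          (D.and (D.cop (TD.var none) (TD.var (some (some none))))
            (D.cop (TD.var none) hf.up.up.up.succ)))))))))

theorem definable_good :
    (∅ : Set ℕ).Definable Lsc {v : Fin 2 → ℕ | ¬ Bad (v 0) ∧ v 1 = v 0 ^ 2} := by
  have h : D (fun v : Fin 2 → ℕ => Psi (v 0) (v 1) ∧ ∀ y, Psi (v 0) y → y = v 1) :=
    D.and (D.psi (TD.var 0) (TD.var 1))
      (D.all (D.imp (D.psi (TD.var (some 0)) (TD.var none)) (D.eq (TD.var none) (TD.var (some 1)))))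
  refine h.of_iff fun v => ?_
  unfold Bad
  push Not
  constructor
  · rintro ⟨h1, h2⟩
    have h3 := two_le_of_psi h1
    have h4 := h2 _ (psi_sq h3)
    exact ⟨⟨h3, fun y hy => (h2 y hy).trans h4.symm⟩, h4.symm⟩
  · rintro ⟨⟨h1, h2⟩, h3⟩
    rw [h3]
    exact ⟨psi_sq h1, h2⟩

theorem main :
    ∃ (L : FirstOrder.Language.{0, 0}) (_i : L.Structure ℕ),
      (∀ (n : ℕ) (f : L.Functions n), ∃ i : Fin n,
        ∀ v : Fin n → ℕ, Structure.funMap f v = v i + 1) ∧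
      (∀ (n : ℕ) (r : L.Relations n), ∃ i j : Fin n,
        ∀ v : Fin n → ℕ, (Structure.RelMap r v ↔ Nat.Coprime (v i) (v j))) ∧
      ∃ X : Set ℕ,
        Tendsto (fun N : ℕ => (({x | x < N ∧ x ∉ X}.ncard : ℕ) : ℝ) / N) atTop (𝓝 0) ∧
        (∅ : Set ℕ).Definable L {v : Fin 2 → ℕ | v 0 ∈ X ∧ v 1 = v 0 ^ 2} := by
  classical
  refine ⟨Lsc, str, fun n f => ⟨_, fun v => rfl⟩, fun n r => ⟨_, _, fun v => Iff.rfl⟩,
    {x | ¬ Bad x}, tendsto_bad.congr fun N => ?_, definable_good⟩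
  rw [← Set.ncard_coe_finset]
  congr 3
  ext x
  simp

end Pool.Agent.P.MP_ed9a6e_lc
end

-- part Pool.Agent.P.MP_ed9a6e_lc.Sp4
section

set_option autoImplicit false

/-! Structure of pairs with the same prime divisors at all shifts. -/

namespace Pool.Agent.P.MP_ed9a6e_lc.Sp

open Finset

/-- two different positive numbers with the same prime divisors at all shifts in `I` -/
def Pair (I : Finset ℕ) (z w : ℕ) : Prop :=
  1 ≤ z ∧ 1 ≤ w ∧ z ≠ w ∧ ∀ i ∈ I, ∀ p : ℕ, p.Prime → (p ∣ z + i ↔ p ∣ w + i)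

theorem add_le_pow {R c q : ℕ} (hq : 1 ≤ q) : R ^ q + c ≤ (R + c) ^ q :=
  (Nat.add_le_add_left (le_pow_T hq) _).trans
    (pow_add_pow_le (Nat.zero_le _) (Nat.zero_le _) (by omega))

theorem small_struct {I : Finset ℕ} {c q R z w : ℕ} (hq : 1 ≤ q) (hI : 40 * q ^ 2 ≤ I.card)
    (hc : ∀ i ∈ I, i < c) (hR : 1 ≤ R) (hz : z ≤ R ^ q) (h : Pair I z w) (hw : w < z ^ 40) :
    ∃ i ∈ I, ∃ a b : ℕ, z + i = a * b ^ q ∧ a ≤ (c.factorial ^ (I.card ^ 2)) ^ q * R ∧
      b ≤ R + c := by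
  obtain ⟨hz1, hw1, hne, hs⟩ := h
  obtain ⟨G, hG⟩ : ∃ G, G = c.factorial ^ (I.card ^ 2) := ⟨_, rfl⟩
  have hG1 : 1 ≤ G := by rw [hG]; exact Nat.one_le_pow _ _ c.factorial_pos
  have hq2 : 1 ≤ q ^ 2 := Nat.one_le_pow _ _ hq
  have hI0 : 1 ≤ I.card := by omega
  have hzz : z ≤ z ^ 40 := le_pow_T (by norm_num)
  have hd : ∀ i ∈ I, rd (z + i) ∣ Nat.dist z w := by
    intro i hi
    refine rd_dvd fun p hp h1 => ?_
    have h2 := (hs i hi p hp).1 h1
    unfold Nat.dist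
    refine dvd_add ?_ ?_
    · have := Nat.dvd_sub h1 h2
      rwa [show z + i - (w + i) = z - w by omega] at this
    · have := Nat.dvd_sub h2 h1
      rwa [show w + i - (z + i) = w - z by omega] at this
  have h1 := prod_dvd I (fun i => rd (z + i)) (Nat.dist z w) c.factorial hd
    (fun i hi j hj hij => gcd_shift_dvd (hc i hi) (hc j hj) hij (rd_dvd_self _) (rd_dvd_self _))
  rw [← hG] at h1 ⊢
  have h2 : 0 < Nat.dist z w := by unfold Nat.dist; omega
  have h3 : Nat.dist z w ≤ (R ^ q) ^ 40 :=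
    le_trans (by unfold Nat.dist; omega) (Nat.pow_le_pow_left hz 40)
  have h4 := (Nat.le_of_dvd (Nat.mul_pos hG1 h2) h1).trans (Nat.mul_le_mul_left G h3)
  obtain ⟨i, hi, hmin⟩ := exists_min_image I (fun i => rd (z + i)) (card_pos.1 hI0)
  have h5 : rd (z + i) ^ I.card ≤ G * (R ^ q) ^ 40 :=
    (pow_card_le_prod I _ _ hmin).trans h4
  obtain ⟨a, b, hab, ha⟩ := split_pow (n := z + i) (q := q) (by omega) (by omega)
  refine ⟨i, hi, a, b, hab, ?_, ?_⟩
  · refine (Nat.pow_le_pow_iff_left (n := I.card) (by omega)).1 ?_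
    calc a ^ I.card ≤ (rd (z + i) ^ q) ^ I.card := Nat.pow_le_pow_left ha _
      _ = (rd (z + i) ^ I.card) ^ q := by rw [← pow_mul, ← pow_mul, mul_comm]
      _ ≤ (G * (R ^ q) ^ 40) ^ q := Nat.pow_le_pow_left h5 _
      _ = G ^ q * R ^ (40 * q ^ 2) := by rw [mul_pow, ← pow_mul, ← pow_mul]; congr 2; ring
      _ ≤ (G ^ q) ^ I.card * R ^ I.card :=
          Nat.mul_le_mul (le_pow_T hI0) (Nat.pow_le_pow_right hR hI)
      _ = _ := (mul_pow _ _ _).symm
  · refine (Nat.pow_le_pow_iff_left (n := q) (by omega)).1 ?_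
    have ha1 : 1 ≤ a := Nat.pos_of_ne_zero (by rintro rfl; omega)
    have h6 : b ^ q ≤ a * b ^ q := Nat.le_mul_of_pos_left _ ha1
    have h7 := hc i hi
    have h8 := add_le_pow (R := R) (c := c) hq
    omega

theorem heavy_one {m s u T : ℕ} (hm : m ≠ 0) (hs : s ≠ 0) (hu : u ≠ 0) (hT : 4 * u ≤ T)
    (h : ∀ p, p.Prime → p ∣ m → p ∣ s) (hl : ¬ m < Nat.gcd m (s ^ T) ^ 4) :
    m ^ 9 ≤ (Nat.floorRoot u m ^ u) ^ 16 := by
  have h2 : Nat.floorRoot u m ≠ 0 := Nat.floorRoot_ne_zero.2 ⟨hu, hm⟩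
  have h1 : 0 < Nat.gcd m (s ^ T) := Nat.gcd_pos_of_pos_left _ (Nat.pos_of_ne_zero hm)
  have h3 := Nat.le_of_dvd (by positivity) (cube_dvd hm hs hu hT h)
  refine Nat.le_of_mul_le_mul_left ?_ (show 0 < m ^ 3 by positivity)
  calc m ^ 3 * m ^ 9 = (m ^ 3) ^ 4 := by ring
    _ ≤ (Nat.gcd m (s ^ T) ^ 3 * Nat.floorRoot u m ^ (4 * u)) ^ 4 := Nat.pow_le_pow_left h3 4
    _ = (Nat.gcd m (s ^ T) ^ 4) ^ 3 * (Nat.floorRoot u m ^ u) ^ 16 := by ring
    _ ≤ _ := Nat.mul_le_mul_right _ (Nat.pow_le_pow_left (not_lt.1 hl) 3)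

/-- the data that determine the larger member of a pair -/
def Hv (w a b t x y : ℕ) : Prop :=
  a ≠ b ∧ x ^ 2 ^ t ∣ w + a ∧ y ^ 2 ^ t ∣ w + b ∧ (w + a) ^ 9 ≤ (x ^ 2 ^ t) ^ 16 ∧
    (w + b) ^ 9 ≤ (y ^ 2 ^ t) ^ 16

theorem heavy_struct (c q : ℕ) (hc : 1 ≤ c) (hq : 1 ≤ q) : ∃ z0 : ℕ, ∀ (I : Finset ℕ) (R z w : ℕ),
    6720 * q + 1 ≤ I.card → (∀ i ∈ I, i < c) → z ≤ R ^ q → z0 ≤ z → Pair I z w → z ^ 40 ≤ w →
    ∃ a ∈ I, ∃ b ∈ I, ∃ t x y : ℕ, Hv w a b t x y ∧ x ≤ R ∧ y ≤ R ∧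
      2 ^ t ≤ 16 * q * (Nat.log 2 w + 1) := by
  classical
  obtain ⟨z0, hz0⟩ := few_light c (16 * q) hc (by omega)
  refine ⟨z0 + c + 2, fun I R z w hI hIc hzR hz h hw => ?_⟩
  obtain ⟨hz1, hw1, -, hs⟩ := h
  have hz2 : 1 < z := by omega
  have hzw : z ≤ w := (le_pow_T (by norm_num)).trans hw
  obtain ⟨T, hT⟩ : ∃ T, T = Nat.log z (w ^ (16 * q)) := ⟨_, rfl⟩
  have hw0 : w ^ (16 * q) ≠ 0 := by positivity
  have hT1 : z ^ T ≤ w ^ (16 * q) := by rw [hT]; exact Nat.pow_log_le_self z hw0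
  have hT2 : w ^ (16 * q) < z ^ (T + 1) := by rw [hT]; exact Nat.lt_pow_succ_log_self hz2 _
  have hT3 : 40 * (16 * q) ≤ T := by
    have : z ^ (40 * (16 * q)) < z ^ (T + 1) := by
      rw [pow_mul]; exact (Nat.pow_le_pow_left hw _).trans_lt hT2
    have := (Nat.pow_lt_pow_iff_right hz2).1 this
    omega
  obtain ⟨t, ht⟩ : ∃ t, t = Nat.log 2 (T / 4) := ⟨_, rfl⟩
  have ht1 : 2 ^ t ≤ T / 4 := by rw [ht]; exact Nat.pow_log_le_self 2 (by omega)
  have ht2 : T / 4 < 2 ^ (t + 1) := by rw [ht]; exact Nat.lt_pow_succ_log_self one_lt_two _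
  rw [pow_succ] at ht2
  have hu0 : 2 ^ t ≠ 0 := by positivity
  have hT4 : T ≤ 16 * q * (Nat.log 2 w + 1) := by
    have h1 : 2 ^ T ≤ 2 ^ (16 * q * (Nat.log 2 w + 1)) := by
      calc 2 ^ T ≤ z ^ T := Nat.pow_le_pow_left hz2 _
        _ ≤ w ^ (16 * q) := hT1
        _ ≤ (2 ^ (Nat.log 2 w + 1)) ^ (16 * q) :=
            Nat.pow_le_pow_left (Nat.lt_pow_succ_log_self one_lt_two _).le _
        _ = _ := by rw [← pow_mul, mul_comm]
    exact (Nat.pow_le_pow_iff_right one_lt_two).1 h1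
  set L := I.filter fun i => w + i < Nat.gcd (w + i) ((z + i) ^ T) ^ 4 with hL
  have hL1 : L.card < 420 * (16 * q) := by
    by_contra hcon
    obtain ⟨J, hJ, hJc⟩ := exists_subset_card_eq (not_lt.1 hcon)
    exact hz0 J z w T hJc (fun i hi => hIc i (mem_filter.1 (hJ hi)).1) (by omega) hT3 hT1
      fun i hi => (mem_filter.1 (hJ hi)).2
  have hL2 := card_filter_add_card_filter_not (s := I)
    (fun i => w + i < Nat.gcd (w + i) ((z + i) ^ T) ^ 4)
  rw [← hL] at hL2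
  obtain ⟨a, ha, b, hb, hab⟩ := one_lt_card.1 (show 1 < (I.filter fun i =>
    ¬ w + i < Nat.gcd (w + i) ((z + i) ^ T) ^ 4).card by omega)
  rw [mem_filter] at ha hb
  have key : ∀ i ∈ I, Nat.floorRoot (2 ^ t) (w + i) ≤ R := by
    intro i hi
    have g1 : Nat.floorRoot (2 ^ t) (w + i) ^ 2 ^ t ≤ w + i :=
      Nat.le_of_dvd (by omega) Nat.floorRoot_pow_dvd
    have g2 : w + i ≤ w ^ 2 := by
      have := hIc i hi
      have : 2 * w ≤ w * w := Nat.mul_le_mul_right _ (by omega)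
      rw [sq]; omega
    refine (Nat.pow_le_pow_iff_left (n := 2 ^ t * (16 * q)) (by positivity)).1 ?_
    calc Nat.floorRoot (2 ^ t) (w + i) ^ (2 ^ t * (16 * q))
        ≤ (w ^ 2) ^ (16 * q) := by rw [pow_mul]; exact Nat.pow_le_pow_left (g1.trans g2) _
      _ = (w ^ (16 * q)) ^ 2 := by rw [← pow_mul, ← pow_mul, mul_comm]
      _ ≤ (z ^ (8 * 2 ^ t)) ^ 2 :=
          Nat.pow_le_pow_left (hT2.le.trans (Nat.pow_le_pow_right hz1 (by omega))) _
      _ ≤ ((R ^ q) ^ (8 * 2 ^ t)) ^ 2 := Nat.pow_le_pow_left (Nat.pow_le_pow_left hzR _) _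
      _ = _ := by simp only [← pow_mul]; congr 1; ring
  refine ⟨a, ha.1, b, hb.1, t, _, _, ⟨hab, Nat.floorRoot_pow_dvd, Nat.floorRoot_pow_dvd,
    heavy_one (by omega) (by omega) hu0 (by omega) (fun p hp => (hs a ha.1 p hp).2) ha.2,
    heavy_one (by omega) (by omega) hu0 (by omega) (fun p hp => (hs b hb.1 p hp).2) hb.2⟩,
    key a ha.1, key b hb.1, by omega⟩

theorem pow_six_le (n : ℕ) : n ^ 6 ≤ 6 ^ 6 * 2 ^ n := by
  have h1 : n / 6 + 1 ≤ 2 ^ (n / 6) := Nat.lt_two_pow_self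
  calc n ^ 6 ≤ (6 * 2 ^ (n / 6)) ^ 6 := Nat.pow_le_pow_left (by omega) 6
    _ = 6 ^ 6 * 2 ^ (n / 6 * 6) := by rw [mul_pow, ← pow_mul]
    _ ≤ _ := Nat.mul_le_mul_left _ (Nat.pow_le_pow_right two_pos (Nat.div_mul_le_self n 6))

theorem scale_bound (c q : ℕ) (hq : 1 ≤ q) : ∃ C : ℕ, ∀ (I : Finset ℕ) (a R z w t : ℕ),
    a ∈ I → a + 1 ∈ I → (∀ i ∈ I, i < c) → 1 ≤ R → z ≤ R ^ q → Pair I z w →
    2 ^ t ≤ 16 * q * (Nat.log 2 w + 1) → t < C * R := by
  refine ⟨16 * q + 3 + 1296 * 81 * 39 * q ^ 6 * (6 ^ 6 * (2 * (1 + c))),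
    fun I a R z w t ha ha1 hc hR hz h ht => ?_⟩
  obtain ⟨hz1, hw1, -, hs⟩ := h
  obtain ⟨n, hn⟩ : ∃ n, n = Nat.log 2 (R + c) + 1 := ⟨_, rfl⟩
  have hn1 : R + c < 2 ^ n := by rw [hn]; exact Nat.lt_pow_succ_log_self one_lt_two _
  have hn2 : 2 ^ n ≤ 2 * (R + c) := by
    rw [hn, pow_succ, mul_comm]
    exact Nat.mul_le_mul_left _ (Nat.pow_log_le_self 2 (by omega))
  obtain ⟨m, hm⟩ : ∃ m, m = n * q := ⟨_, rfl⟩
  have hm1 : 1 ≤ m := by rw [hm]; exact Nat.mul_pos (by omega) hq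
  have hzm : z + c ≤ 2 ^ m := by
    rw [hm, pow_mul]
    exact (Nat.add_le_add_right hz c).trans ((add_le_pow hq).trans (Nat.pow_le_pow_left hn1.le _))
  have hac := hc _ ha1
  have hsub : ((w + a) * (w + a + 1)).primeFactors ⊆ ((z + a) * (z + a + 1)).primeFactors := by
    intro p hp
    obtain ⟨hp1, hp2, -⟩ := Nat.mem_primeFactors.1 hp
    refine Nat.mem_primeFactors.2 ⟨hp1, ?_, by positivity⟩
    rcases (Nat.Prime.dvd_mul hp1).1 hp2 with h1 | h1
    · exact ((hs a ha p hp1).2 h1).mul_right _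
    · exact ((hs (a + 1) ha1 p hp1).2 h1).mul_left _
  have hcard : ((w + a) * (w + a + 1)).primeFactors.card ≤ 2 * m := by
    refine (card_le_card hsub).trans (card_primeFactors_le ?_)
    rw [two_mul, pow_add]
    exact Nat.mul_le_mul (by omega) (by omega)
  have hx : m ≤ 1296 * (2 * m + 1) ^ 4 :=
    le_trans (le_trans (by omega) (le_pow_T (a := 2 * m + 1) (T := 4) (by norm_num))) (by omega)
  have hB := Pool.Agent.Lib.Baker.log_succ_le (z := w + a) (s := 2 * m)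
    (x := 1296 * (2 * m + 1) ^ 4) (by omega) hcard (fun p hp => by
      obtain ⟨hp1, hp2, -⟩ := Nat.mem_primeFactors.1 (hsub hp)
      have h1 : p ≤ 2 ^ m := by
        rcases (Nat.Prime.dvd_mul hp1).1 hp2 with h1 | h1
        · exact (Nat.le_of_dvd (by omega) h1).trans (by omega)
        · exact (Nat.le_of_dvd (by omega) h1).trans (by omega)
      have h2 : Real.log p ≤ Real.log ((2 : ℝ) ^ m) :=
        Real.log_le_log (by exact_mod_cast hp1.pos) (by exact_mod_cast h1)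
      rw [Real.log_pow] at h2
      have h3 : Real.log 2 ≤ 1 := by
        have := Real.log_two_lt_d9
        linarith
      have h4 : (m : ℝ) * Real.log 2 ≤ m := mul_le_of_le_one_right (by positivity) h3
      have h5 : (m : ℝ) ≤ ((1296 * (2 * m + 1) ^ 4 : ℕ) : ℝ) := by exact_mod_cast hx
      linarith) le_rfl
  obtain ⟨x, hxd⟩ : ∃ x, x = 1296 * (2 * m + 1) ^ 4 := ⟨_, rfl⟩
  obtain ⟨E, hE⟩ : ∃ E, E = 5 * (2 * m) ^ 2 + 5 * (2 * m) + 9 := ⟨_, rfl⟩
  rw [← hxd, ← hE] at hB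
  have h1 : Nat.log 2 w ≤ Nat.log 2 (w + a + 1) := Nat.log_mono_right (by omega)
  have h2 : x ^ E ≤ 2 ^ (x * E) := by
    rw [pow_mul]; exact Nat.pow_le_pow_left Nat.lt_two_pow_self.le _
  have h3 : 1 ≤ 2 ^ (x * E) := Nat.one_le_two_pow
  have h4 : 2 ^ t ≤ 2 ^ (16 * q + (x * E + 2)) := by
    rw [pow_add, pow_add]
    exact ht.trans (Nat.mul_le_mul Nat.lt_two_pow_self.le (by omega))
  have h5 := (Nat.pow_le_pow_iff_right one_lt_two).1 h4
  have h6 : x * E ≤ 1296 * 81 * 39 * m ^ 6 := by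
    have g1 : (2 * m + 1) ^ 4 ≤ (3 * m) ^ 4 := Nat.pow_le_pow_left (by omega) 4
    have g2 : E ≤ 39 * m ^ 2 := by rw [hE]; nlinarith
    calc x * E ≤ 1296 * (3 * m) ^ 4 * (39 * m ^ 2) :=
          Nat.mul_le_mul (by rw [hxd]; exact Nat.mul_le_mul_left _ g1) g2
      _ = _ := by ring
  have h7 : m ^ 6 ≤ q ^ 6 * (6 ^ 6 * (2 * (1 + c))) * R := by
    have g1 : R + c ≤ (1 + c) * R := by nlinarith
    calc m ^ 6 = q ^ 6 * n ^ 6 := by rw [hm]; ring
      _ ≤ q ^ 6 * (6 ^ 6 * (2 * ((1 + c) * R))) :=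
          Nat.mul_le_mul_left _ ((pow_six_le n).trans (Nat.mul_le_mul_left _
            (hn2.trans (Nat.mul_le_mul_left _ g1))))
      _ = _ := by ring
  have h8 : 16 * q + 3 ≤ (16 * q + 3) * R := Nat.le_mul_of_pos_right _ hR
  have h9 := Nat.mul_le_mul_left (1296 * 81 * 39) h7
  calc t < (16 * q + 3) * R + 1296 * 81 * 39 * (q ^ 6 * (6 ^ 6 * (2 * (1 + c))) * R) := by omega
    _ = _ := by ring

end Pool.Agent.P.MP_ed9a6e_lc.Sp
end

-- part Pool.Agent.P.MP_ed9a6e_lc.Sp5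
section

set_option autoImplicit false

/-! Counting the members of pairs. -/

namespace Pool.Agent.P.MP_ed9a6e_lc.Sp

open Finset

theorem Pair.trans_left {I : Finset ℕ} {z z' w : ℕ} (h : Pair I z w) (h' : Pair I z' w)
    (hne : z ≠ z') : Pair I z z' :=
  ⟨h.1, h'.1, hne, fun i hi p hp => (h.2.2.2 i hi p hp).trans (h'.2.2.2 i hi p hp).symm⟩

theorem Hv.unique {c w w' a b t x y : ℕ} (ha : a < c) (hb : b < c) (h : Hv w a b t x y)
    (h' : Hv w' a b t x y) (hw : c.factorial ^ 8 < w) (hw' : c.factorial ^ 8 < w') : w = w' := by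
  obtain ⟨hab, h1, h2, h3, h4⟩ := h
  obtain ⟨-, g1, g2, g3, g4⟩ := h'
  have k1 := unique_of_heavy ha hb hab h1 h2 g1 g2 g3 g4 hw'
  have k2 := unique_of_heavy ha hb hab g1 g2 h1 h2 h3 h4 hw
  omega

open Classical in
theorem sparse (q : ℕ) (hq : 1 ≤ q) (I : Finset ℕ) (a0 : ℕ) (ha : a0 ∈ I) (ha1 : a0 + 1 ∈ I)
    (hI : 6720 * q + 1 ≤ I.card) (hI2 : 40 * q ^ 2 ≤ I.card) :
    ∃ C : ℕ, ∀ R : ℕ, 1 ≤ R →
      ((range (R ^ q + 1)).filter fun z => ∃ w, Pair I z w).card ≤ C * R ^ 3 := by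
  obtain ⟨c, hc⟩ : ∃ c, c = I.sup id + 1 := ⟨_, rfl⟩
  have hIc : ∀ i ∈ I, i < c := fun i hi => by
    have : id i ≤ I.sup id := le_sup hi
    rw [hc]; exact Nat.lt_succ_of_le this
  obtain ⟨z0, hz0⟩ := heavy_struct c q (by omega) hq
  obtain ⟨C1, hC1⟩ := scale_bound c q hq
  obtain ⟨G, hG⟩ : ∃ G, G = (c.factorial ^ (I.card ^ 2)) ^ q := ⟨_, rfl⟩
  obtain ⟨z1, hz1⟩ : ∃ z1, z1 = z0 + c.factorial ^ 8 + 1 := ⟨_, rfl⟩
  refine ⟨z1 + I.card * ((G + 1) * (c + 2)) + I.card * (I.card * (C1 * 4)), fun R hR => ?_⟩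
  set Sm := (I ×ˢ range (G * R + 1) ×ˢ range (R + c + 1)).image
    fun τ : ℕ × ℕ × ℕ => τ.2.1 * τ.2.2 ^ q - τ.1 with hSm
  have hsmall : ∀ z w, z ≤ R ^ q → Pair I z w → w < z ^ 40 → z ∈ Sm := by
    intro z w hz h hw
    obtain ⟨i, hi, a, b, hab, h1, h2⟩ := small_struct hq hI2 hIc hR hz h hw
    rw [← hG] at h1
    refine mem_image.2 ⟨(i, a, b), ?_, by simp only; omega⟩
    simp only [mem_product, mem_range]
    exact ⟨hi, by omega, by omega⟩
  set Bg := (range (R ^ q + 1)).filter fun z => (∃ w, Pair I z w) ∧ z1 ≤ z ∧ z ∉ Sm with hBg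
  have hsub : ((range (R ^ q + 1)).filter fun z => ∃ w, Pair I z w) ⊆ range z1 ∪ Sm ∪ Bg := by
    intro z hz
    rw [mem_filter] at hz
    simp only [mem_union, mem_range, hBg, mem_filter]
    by_cases h1 : z < z1
    · exact Or.inl (Or.inl h1)
    by_cases h2 : z ∈ Sm
    · exact Or.inl (Or.inr h2)
    · exact Or.inr ⟨mem_range.1 hz.1, hz.2, not_lt.1 h1, h2⟩
  have hR3 : 1 ≤ R ^ 3 := Nat.one_le_pow _ _ hR
  have c1 : Sm.card ≤ I.card * ((G + 1) * (c + 2)) * R ^ 3 := by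
    refine card_image_le.trans ?_
    rw [card_product, card_product, card_range, card_range, mul_assoc]
    refine Nat.mul_le_mul_left _ ?_
    calc (G * R + 1) * (R + c + 1) ≤ ((G + 1) * R) * ((c + 2) * R) :=
          Nat.mul_le_mul (by nlinarith) (by nlinarith)
      _ = (G + 1) * (c + 2) * R ^ 2 := by ring
      _ ≤ _ := Nat.mul_le_mul_left _ (Nat.pow_le_pow_right hR (by norm_num))
  have hex : ∀ z ∈ Bg, ∃ τ ∈ I ×ˢ I ×ˢ range (C1 * R) ×ˢ range (R + 1) ×ˢ range (R + 1),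
      ∃ w, Pair I z w ∧ c.factorial ^ 8 < w ∧ Hv w τ.1 τ.2.1 τ.2.2.1 τ.2.2.2.1 τ.2.2.2.2 := by
    intro z hz
    rw [hBg, mem_filter, mem_range] at hz
    obtain ⟨hzR, ⟨w, hw⟩, h1, h2⟩ := hz
    have h3 : z ^ 40 ≤ w := not_lt.1 fun h => h2 (hsmall z w (by omega) hw h)
    obtain ⟨a, haI, b, hbI, t, x, y, hH, hx, hy, ht⟩ :=
      hz0 I R z w hI hIc (by omega) (by omega) hw h3
    have h4 : z ≤ z ^ 40 := le_pow_T (by norm_num)
    refine ⟨(a, b, t, x, y), ?_, w, hw, by omega, hH⟩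
    simp only [mem_product, mem_range]
    exact ⟨haI, hbI, hC1 I a0 R z w t ha ha1 hIc hR (by omega) hw ht, by omega, by omega⟩
  choose! τ hτ w hw1 hw2 hw3 using hex
  have c2 : Bg.card ≤ I.card * (I.card * (C1 * 4)) * R ^ 3 := by
    refine (card_le_card_of_injOn τ hτ fun z hz z' hz' he => ?_).trans ?_
    · have g1 := hτ z hz
      simp only [mem_product] at g1
      have g2 := hw3 z' hz'
      rw [← he] at g2
      have g3 := Hv.unique (hIc _ g1.1) (hIc _ g1.2.1) (hw3 z hz) g2 (hw2 z hz) (hw2 z' hz')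
      have g4 := hw1 z hz
      have g5 := hw1 z' hz'
      rw [← g3] at g5
      by_contra hne
      have m1 := mem_filter.1 (mem_coe.1 hz)
      have m2 := mem_filter.1 (mem_coe.1 hz')
      have r1 := mem_range.1 m1.1
      have r2 := mem_range.1 m2.1
      rcases lt_or_gt_of_ne hne with h | h
      · exact m2.2.2.2 (hsmall z' z (by omega) (g5.trans_left g4 (Ne.symm hne))
          (h.trans_le (le_pow_T (by norm_num))))
      · exact m1.2.2.2 (hsmall z z' (by omega) (g4.trans_left g5 hne)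
          (h.trans_le (le_pow_T (by norm_num))))
    · simp only [card_product, card_range]
      calc I.card * (I.card * (C1 * R * ((R + 1) * (R + 1))))
          ≤ I.card * (I.card * (C1 * R * ((2 * R) * (2 * R)))) :=
            Nat.mul_le_mul_left _ (Nat.mul_le_mul_left _
              (Nat.mul_le_mul_left _ (Nat.mul_le_mul (by omega) (by omega))))
        _ = _ := by ring
  have c3 : z1 ≤ z1 * R ^ 3 := Nat.le_mul_of_pos_right _ hR3
  have c4 := (card_le_card hsub).trans ((card_union_le _ _).trans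
    (Nat.add_le_add_right (card_union_le _ _) _))
  rw [card_range] at c4
  rw [add_mul, add_mul]
  omega

/-- passage from bounds along perfect powers to real exponents -/
theorem real_bound {S : Set ℕ} {q C : ℕ} {ε : ℝ} (hq : 1 ≤ q) (hε : 3 / (q : ℝ) ≤ ε)
    (h : ∀ R : ℕ, 1 ≤ R → {x | x ≤ R ^ q ∧ x ∈ S}.ncard ≤ C * R ^ 3) (N : ℕ) :
    (({x | x < N ∧ x ∈ S}.ncard : ℕ) : ℝ) ≤ 8 * C * (N : ℝ) ^ ε := by
  rcases Nat.eq_zero_or_pos N with rfl | hN
  · simp only [Nat.not_lt_zero, false_and, Set.ofPred_false, Set.ncard_empty, Nat.cast_zero]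
    positivity
  have hN1 : (1 : ℝ) ≤ N := by exact_mod_cast hN
  have hq0 : (0 : ℝ) < q := by exact_mod_cast hq
  obtain ⟨r, hr⟩ : ∃ r : ℝ, r = (N : ℝ) ^ ((q : ℝ)⁻¹) := ⟨_, rfl⟩
  have hr1 : 1 ≤ r := by rw [hr]; exact Real.one_le_rpow hN1 (by positivity)
  have h1 : (N : ℝ) = r ^ q := by rw [hr, Real.rpow_inv_natCast_pow (by positivity) (by omega)]
  have h2 : r ≤ ⌈r⌉₊ := Nat.le_ceil r
  have h3 : (⌈r⌉₊ : ℝ) ≤ 2 * r := by
    have := Nat.ceil_lt_add_one (by linarith : 0 ≤ r)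
    linarith
  have h4 : 1 ≤ ⌈r⌉₊ := by exact_mod_cast hr1.trans h2
  have h5 : N ≤ ⌈r⌉₊ ^ q := by
    have : (N : ℝ) ≤ (⌈r⌉₊ : ℝ) ^ q := by rw [h1]; exact pow_le_pow_left₀ (by linarith) h2 q
    exact_mod_cast this
  have h6 : {x | x < N ∧ x ∈ S}.ncard ≤ C * ⌈r⌉₊ ^ 3 :=
    le_trans (Set.ncard_le_ncard (fun x hx => And.intro (hx.1.le.trans h5) hx.2)
      ((Set.finite_Iic (⌈r⌉₊ ^ q)).subset fun x hx => hx.1)) (h _ h4)
  have h7 : r ^ 3 ≤ (N : ℝ) ^ ε := by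
    rw [hr, ← Real.rpow_natCast, ← Real.rpow_mul (by positivity)]
    refine Real.rpow_le_rpow_of_exponent_le hN1 (le_trans (le_of_eq ?_) hε)
    push_cast
    field_simp
  calc (({x | x < N ∧ x ∈ S}.ncard : ℕ) : ℝ) ≤ C * (⌈r⌉₊ : ℝ) ^ 3 := by exact_mod_cast h6
    _ ≤ C * (2 * r) ^ 3 := by gcongr
    _ = 8 * C * r ^ 3 := by ring
    _ ≤ _ := by gcongr

theorem exists_q {ε : ℝ} (hε : 0 < ε) : ∃ q : ℕ, 1 ≤ q ∧ 3 / (q : ℝ) ≤ ε := by
  obtain ⟨q, hq⟩ := exists_nat_gt (3 / ε)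
  have h1 : (0 : ℝ) < q := lt_trans (by positivity) hq
  refine ⟨q, by exact_mod_cast h1, ?_⟩
  rw [div_le_iff₀ h1]
  rw [div_lt_iff₀ hε] at hq
  linarith

end Pool.Agent.P.MP_ed9a6e_lc.Sp
end

-- part Pool.Agent.P.MP_ed9a6e_lc.Sp6
section

set_option autoImplicit false

/-! The defining formula for squaring and the size of its exceptional set. -/

namespace Pool.Agent.P.MP_ed9a6e_lc.Sp

open Finset FirstOrder FirstOrder.Language

attribute [local instance] str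

theorem TD_add {α : Type} {f : (α → ℕ) → ℕ} (hf : TD f) (n : ℕ) : TD (fun v => f v + n) := by
  induction n with
  | zero => exact hf
  | succ n ih => exact ih.succ

theorem D_forall_lt {α : Type} {P : ℕ → (α → ℕ) → Prop} (n : ℕ) (h : ∀ j, D (P j)) :
    D (fun v => ∀ j < n, P j v) := by
  induction n with
  | zero => exact ((h 0).imp (h 0)).of_iff fun v => by simp
  | succ n ih =>
    exact (ih.and (h n)).of_iff fun v => by
      rw [Nat.forall_lt_succ_right]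

/-- `w + k^2 - j^2` has the same prime divisors as `(u + k - j) (u + k + j)` for all `j ≤ k` -/
def Phi (k u w : ℕ) : Prop :=
  ∀ j < k + 1, ∀ s : ℕ, Nat.Coprime s (w + (k ^ 2 - j ^ 2)) ↔
    (Nat.Coprime s (u + (k - j)) ∧ Nat.Coprime s (u + (k + j)))

theorem D_phi {α : Type} {f g : (α → ℕ) → ℕ} (k : ℕ) (hf : TD f) (hg : TD g) :
    D (fun v => Phi k (f v) (g v)) :=
  D_forall_lt (k + 1) fun _ => D.all (D.iff (D.cop (TD.var none) (TD_add hg.up _))
    (D.and (D.cop (TD.var none) (TD_add hf.up _)) (D.cop (TD.var none) (TD_add hf.up _))))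

theorem sq_shift {k j : ℕ} (u : ℕ) (hj : j < k + 1) :
    u * (u + 2 * k) + (k ^ 2 - j ^ 2) = (u + (k - j)) * (u + (k + j)) := by
  obtain ⟨d, rfl⟩ : ∃ d, k = j + d := ⟨k - j, by omega⟩
  have : (j + d) ^ 2 - j ^ 2 = d * (2 * j + d) := by
    rw [Nat.sub_eq_iff_eq_add (Nat.pow_le_pow_left (by omega) 2)]; ring
  rw [this, Nat.add_sub_cancel_left]
  ring

theorem phi_sq (k u : ℕ) : Phi k u (u * (u + 2 * k)) := fun j hj s => by
  rw [sq_shift u hj, Nat.coprime_mul_iff_right]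

/-- the shifts used by the formula -/
def shifts (k : ℕ) : Finset ℕ := (range (k + 1)).image fun j => k ^ 2 - j ^ 2

theorem card_shifts (k : ℕ) : (shifts k).card = k + 1 := by
  rw [shifts, card_image_of_injOn, card_range]
  intro i hi j hj h
  have h1 : i ^ 2 ≤ k ^ 2 := Nat.pow_le_pow_left (by simpa [Nat.lt_succ_iff] using hi) 2
  have h2 : j ^ 2 ≤ k ^ 2 := Nat.pow_le_pow_left (by simpa [Nat.lt_succ_iff] using hj) 2
  simp only at h
  exact Nat.pow_left_injective two_ne_zero (by simp only; omega)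

theorem pair_of_phi {k u w : ℕ} (hu : 1 ≤ u) (h : Phi k u w) (hne : w ≠ u * (u + 2 * k)) :
    Pair (shifts k) (u * (u + 2 * k)) w := by
  have key : ∀ i ∈ shifts k, ∀ p : ℕ, p.Prime → (p ∣ u * (u + 2 * k) + i ↔ p ∣ w + i) := by
    intro i hi p hp
    obtain ⟨j, hj, rfl⟩ := mem_image.1 hi
    have h1 := (h j (mem_range.1 hj) p).trans (phi_sq k u j (mem_range.1 hj) p).symm
    rw [hp.coprime_iff_not_dvd, hp.coprime_iff_not_dvd] at h1
    exact (not_iff_not.1 h1).symm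
  have hpos : 1 ≤ u * (u + 2 * k) := Nat.mul_pos hu (by omega)
  refine ⟨hpos, Nat.pos_of_ne_zero ?_, hne.symm, key⟩
  rintro rfl
  obtain ⟨p, hp1, hp⟩ := Nat.exists_infinite_primes (u * (u + 2 * k) + 1)
  have h1 := (key 0 (mem_image.2 ⟨k, by simp, by simp⟩) p hp).2 (by simp)
  have := Nat.le_of_dvd (by omega) h1
  omega

/-- inputs on which the formula gives exactly the square -/
def Good (k x : ℕ) : Prop := ∃ u, x = u + k ∧ ∀ w, Phi k u w → w = u * (u + 2 * k)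

theorem definable_sq (k : ℕ) :
    (∅ : Set ℕ).Definable Lsc {v : Fin 2 → ℕ | Good k (v 0) ∧ v 1 = v 0 ^ 2} := by
  have h : D (fun v : Fin 2 → ℕ => ∃ u w, v 0 = u + k ∧ v 1 = w + k ^ 2 ∧ Phi k u w ∧
      ∀ w', Phi k u w' → w' = w) :=
    D.ex (D.ex (D.and (D.eq (TD.var (some (some 0))) (TD_add (TD.var (some none)) k))
      (D.and (D.eq (TD.var (some (some 1))) (TD_add (TD.var none) _))
        (D.and (D_phi k (TD.var (some none)) (TD.var none))
          (D.all (D.imp (D_phi k (TD.var (some (some none))) (TD.var none))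
            (D.eq (TD.var none) (TD.var (some none)))))))))
  refine h.of_iff fun v => ⟨?_, ?_⟩
  · rintro ⟨u, w, h1, h2, -, h4⟩
    have h5 := h4 _ (phi_sq k u)
    refine ⟨⟨u, h1, fun w' hw' => (h4 w' hw').trans h5.symm⟩, ?_⟩
    rw [h2, h1, ← h5]; ring
  · rintro ⟨⟨u, h1, h2⟩, h3⟩
    exact ⟨u, _, h1, by rw [h3, h1]; ring, phi_sq k u, h2⟩

theorem bad_count (q : ℕ) (hq : 1 ≤ q) : ∃ k C : ℕ, ∀ R : ℕ, 1 ≤ R →
    {x | x ≤ R ^ q ∧ x ∈ {x | ¬ Good k x}}.ncard ≤ C * R ^ 3 := by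
  classical
  obtain ⟨k, hk⟩ : ∃ k, k = 6720 * (2 * q) + 40 * (2 * q) ^ 2 := ⟨_, rfl⟩
  have hk1 : 1 ≤ k := by omega
  have hk2 : 1 ≤ k ^ 2 := Nat.one_le_pow _ _ hk1
  obtain ⟨C, hC⟩ := sparse (2 * q) (by omega) (shifts k) (k ^ 2 - 1)
    (mem_image.2 ⟨1, mem_range.2 (by omega), by simp⟩)
    (mem_image.2 ⟨0, mem_range.2 (by omega), by simp; omega⟩)
    (by rw [card_shifts]; omega) (by rw [card_shifts]; omega)
  refine ⟨k, k + 1 + C, fun R hR => ?_⟩
  set B := (range (R ^ (2 * q) + 1)).filter fun z => ∃ w, Pair (shifts k) z w with hB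
  have hsub : {x | x ≤ R ^ q ∧ x ∈ {x | ¬ Good k x}} ⊆
      ↑(range (k + 1) ∪ B.image fun z => Nat.sqrt (z + k ^ 2)) := by
    rintro x ⟨h1, h2⟩
    rw [mem_coe, mem_union, mem_range]
    by_cases hx : x < k + 1
    · exact Or.inl hx
    obtain ⟨u, rfl⟩ : ∃ u, x = u + k := ⟨x - k, by omega⟩
    have h3 : ∃ w, Phi k u w ∧ w ≠ u * (u + 2 * k) := by
      by_contra hcon
      push Not at hcon
      exact h2 ⟨u, rfl, hcon⟩
    obtain ⟨w, hw, hne⟩ := h3
    have h4 : u * (u + 2 * k) + k ^ 2 = (u + k) ^ 2 := by ring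
    have h5 : (u + k) ^ 2 ≤ R ^ (2 * q) := by
      rw [mul_comm 2 q, pow_mul]; exact Nat.pow_le_pow_left h1 2
    refine Or.inr (mem_image.2 ⟨u * (u + 2 * k), mem_filter.2 ⟨mem_range.2 (by omega),
      w, pair_of_phi (by omega) hw hne⟩, ?_⟩)
    rw [h4, Nat.sqrt_eq']
  have h1 := Set.ncard_le_ncard hsub (finite_toSet _)
  rw [Set.ncard_coe_finset] at h1
  have h2 := (card_union_le _ _).trans' h1
  have h3 := (card_image_le (s := B) (f := fun z => Nat.sqrt (z + k ^ 2))).trans (hC R hR)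
  have h4 : k + 1 ≤ (k + 1) * R ^ 3 := Nat.le_mul_of_pos_right _ (Nat.one_le_pow _ _ hR)
  rw [card_range] at h2
  rw [add_mul]
  omega

theorem main :
    ∃ (L : FirstOrder.Language.{0, 0}) (_i : L.Structure ℕ),
      (∀ (n : ℕ) (f : L.Functions n), ∃ i : Fin n,
        ∀ v : Fin n → ℕ, Structure.funMap f v = v i + 1) ∧
      (∀ (n : ℕ) (r : L.Relations n), ∃ i j : Fin n,
        ∀ v : Fin n → ℕ, (Structure.RelMap r v ↔ Nat.Coprime (v i) (v j))) ∧
      ∀ ε : ℝ, 0 < ε → ∃ (X : Set ℕ) (C : ℝ),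
        (∀ N : ℕ, (({x | x < N ∧ x ∉ X}.ncard : ℕ) : ℝ) ≤ C * (N : ℝ) ^ ε) ∧
        (∅ : Set ℕ).Definable L {v : Fin 2 → ℕ | v 0 ∈ X ∧ v 1 = v 0 ^ 2} := by
  refine ⟨Lsc, str, fun n f => ⟨_, fun v => rfl⟩, fun n r => ⟨_, _, fun v => Iff.rfl⟩,
    fun ε hε => ?_⟩
  obtain ⟨q, hq, hqε⟩ := exists_q hε
  obtain ⟨k, C, hC⟩ := bad_count q hq
  exact ⟨{x | Good k x}, 8 * C, real_bound hq hqε hC, definable_sq k⟩

end Pool.Agent.P.MP_ed9a6e_lc.Sp
end
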