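import Pool.Agent.Lib.Ridout.Van
import Pool.Agent.K.MP_ed9a6e_lc.C0

-- part Pool.Agent.P.MP_ed9a6e_lc.W1
section

set_option autoImplicit false

/-! A zero lemma that is uniform in the number of points. -/

namespace Pool.Agent.P.MP_ed9a6e_lc.Win

open Finset Polynomial Pool.Agent.Lib.Ridout

theorem iter_comb {l : ℕ} (c : Fin l → ℚ) (φ : Fin l → ℚ[X]) (m : ℕ) :
    derivative^[m] (∑ b, c b • φ b) = ∑ b, C (c b) • derivative^[m] (φ b) := by
  rw [iterate_derivative_sum]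
  refine sum_congr rfl fun b _ => ?_
  rw [iterate_derivative_smul, smul_eq_mul, smul_eq_C_mul]

theorem wr_mult {ι : Type*} (l D : ℕ) (φ : Fin l → ℚ[X]) (hφ : LinearIndependent ℚ φ)
    (hD : ∀ b, (φ b).natDegree ≤ D) (S : Finset ι) (a : ι → ℚ) (ν : ι → ℕ)
    (ha : Set.InjOn a S)
    (h : ∀ s ∈ S, ∃ c : Fin l → ℚ, c ≠ 0 ∧ (X - C (a s)) ^ ν s ∣ ∑ b, c b • φ b) :
    ∑ s ∈ S, (ν s - l) ≤ l * D := by
  classical
  obtain ⟨L, hL, hW⟩ := gen_wronskian _ taylor_one l φ hφ
  simp only [DL_one] at hW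
  set M : Matrix (Fin l) (Fin l) ℚ[X] :=
    Matrix.of fun i j => derivative^[(L i).length] (φ j) with hM
  have hdeg : M.det.natDegree ≤ l * D := by
    rw [Matrix.det_apply]
    refine natDegree_sum_le_of_forall_le _ _ fun σ _ => ?_
    refine (natDegree_smul_le _ _).trans ((natDegree_prod_le _ _).trans ?_)
    refine (sum_le_card_nsmul _ _ D fun i _ => ?_).trans (by simp)
    exact (natDegree_iterate_derivative _ _).trans ((Nat.sub_le _ _).trans (hD _))
  have hdvd : ∀ s ∈ S, (X - C (a s)) ^ (ν s - l) ∣ M.det := by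
    intro s hs
    obtain ⟨c, hc, hd⟩ := h s hs
    obtain ⟨j, hj⟩ := Function.ne_iff.1 hc
    have h1 := Matrix.det_updateCol_sum M j (fun i => C (c i))
    have h2 : (X - C (a s)) ^ (ν s - l) ∣
        (M.updateCol j (fun k => ∑ i, C (c i) • M k i)).det := by
      rw [Matrix.det_apply]
      refine dvd_sum fun σ _ => ?_
      rw [Units.smul_def, zsmul_eq_mul]
      refine Dvd.dvd.mul_left (dvd_trans ?_ (dvd_prod_of_mem _ (mem_univ j))) _
      rw [Matrix.updateCol_self]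
      have h3 := pow_sub_dvd_iterate_derivative_of_pow_dvd (L (σ j)).length hd
      rw [iter_comb] at h3
      exact (pow_dvd_pow _ (by have := hL (σ j); omega)).trans h3
    rw [h1, smul_eq_mul] at h2
    exact (IsUnit.dvd_mul_left (isUnit_C.2 (Ne.isUnit hj))).1 h2
  have h4 : ∏ s ∈ S, (X - C (a s)) ^ (ν s - l) ∣ M.det := by
    refine Finset.prod_dvd_of_coprime (fun s hs t ht hst => ?_) hdvd
    exact (isCoprime_X_sub_C_of_isUnit_sub
      (sub_ne_zero_of_ne fun e => hst (ha hs ht e)).isUnit).pow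
  have h5 := natDegree_le_of_dvd h4 hW
  rw [natDegree_prod_of_monic _ _ fun s _ => (monic_X_sub_C _).pow _] at h5
  simp only [natDegree_pow, natDegree_X_sub_C, mul_one] at h5
  exact h5.trans hdeg

theorem zero_lemma {ι : Type*} (D : ℕ) (a t : ι → ℚ) (ν : ι → ℕ) :
    ∀ (j : ℕ) (F : ℚ[X][X]) (S : Finset ι), F ≠ 0 → F.natDegree < j →
      (∀ b, (F.coeff b).natDegree ≤ D) → Set.InjOn a S → Set.InjOn t S → (∀ s ∈ S, ν s ≤ D) →
      (∀ s ∈ S, (X - C (a s)) ^ ν s ∣ F.eval (C (t s))) → ∑ s ∈ S, (ν s - j) ≤ j * D := by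
  classical
  intro j
  induction j with
  | zero => intro F S _ h; omega
  | succ j ih =>
    intro F S hF hj hD ha ht hν h
    by_cases h0 : ∃ s ∈ S, F.eval (C (t s)) = 0
    · obtain ⟨s0, hs0, h0⟩ := h0
      have h1 := mul_divByMonic_eq_iff_isRoot.2 h0
      set G := F /ₘ (X - C (C (t s0))) with hG
      have hG0 : G ≠ 0 := by
        intro e
        rw [e, mul_zero] at h1
        exact hF h1.symm
      have h2 : G.natDegree < j := by
        have := congrArg natDegree h1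
        rw [natDegree_mul (X_sub_C_ne_zero _) hG0, natDegree_X_sub_C] at this
        omega
      have h3 : ∀ b, (G.coeff b).natDegree ≤ D := by
        intro b
        rw [hG, coeff_divByMonic_X_sub_C]
        refine natDegree_sum_le_of_forall_le _ _ fun i _ => ?_
        rw [← C_pow]
        exact (natDegree_C_mul_le _ _).trans (hD i)
      have h4 := ih G (S.erase s0) hG0 h2 h3 (ha.mono (coe_subset.2 (erase_subset _ _)))
        (ht.mono (coe_subset.2 (erase_subset _ _))) (fun s hs => hν s (mem_of_mem_erase hs))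
        (fun s hs => by
          have h5 := h s (mem_of_mem_erase hs)
          rw [← h1, eval_mul, eval_sub, eval_X, eval_C, ← C_sub] at h5
          exact (IsUnit.dvd_mul_left (isUnit_C.2 (Ne.isUnit (sub_ne_zero_of_ne fun e =>
            ne_of_mem_erase hs (ht (mem_of_mem_erase hs) hs0 e))))).1 h5)
      rw [← add_sum_erase _ _ hs0]
      have h6 : ∑ s ∈ S.erase s0, (ν s - (j + 1)) ≤ ∑ s ∈ S.erase s0, (ν s - j) :=
        sum_le_sum fun s _ => by omega
      have h7 := hν s0 hs0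
      rw [add_mul, one_mul]
      omega
    · push Not at h0
      set V := Submodule.span ℚ (Set.range fun b : Fin (j + 1) => F.coeff b) with hV
      have : FiniteDimensional ℚ V := FiniteDimensional.span_of_finite ℚ (Set.finite_range _)
      have hl : Module.finrank ℚ V ≤ j + 1 := by
        have := finrank_range_le_card (R := ℚ) fun b : Fin (j + 1) => F.coeff b
        rwa [Fintype.card_fin] at this
      have hVD : V ≤ degreeLE ℚ D := by
        rw [hV, Submodule.span_le]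
        rintro _ ⟨b, rfl⟩
        exact mem_degreeLE.2 (degree_le_of_natDegree_le (hD b))
      let β := Module.finBasis ℚ V
      have h1 := wr_mult (Module.finrank ℚ V) D (fun i => (β i : ℚ[X]))
        (β.linearIndependent.map' V.subtype V.ker_subtype)
        (fun i => natDegree_le_iff_degree_le.2 (mem_degreeLE.1 (hVD (β i).2))) S a ν ha
        (fun s hs => by
          have hm : F.eval (C (t s)) ∈ V := by
            rw [eval_eq_sum_range' hj]
            refine Submodule.sum_mem _ fun b hb => ?_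
            rw [← C_pow, mul_comm, ← smul_eq_C_mul]
            exact Submodule.smul_mem _ _ (Submodule.subset_span ⟨⟨b, mem_range.1 hb⟩, rfl⟩)
          have h2 := congrArg V.subtype (β.sum_repr ⟨_, hm⟩)
          simp only [map_sum, map_smul, Submodule.subtype_apply] at h2
          refine ⟨fun i => β.repr ⟨_, hm⟩ i, fun e => h0 s hs ?_, by rw [h2]; exact h s hs⟩
          rw [← h2]
          exact sum_eq_zero fun i _ => by rw [congrFun e i]; simp)
      refine le_trans (sum_le_sum fun s _ => by omega) (h1.trans (Nat.mul_le_mul_right _ hl))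

end Pool.Agent.P.MP_ed9a6e_lc.Win
end

-- part Pool.Agent.P.MP_ed9a6e_lc.W2
section

set_option autoImplicit false

/-! The Thue-Siegel step with many anchor points. -/

namespace Pool.Agent.P.MP_ed9a6e_lc.Win

open Finset Polynomial Pool.Agent.P.MP_ed9a6e_lc.Sp

theorem prod_dvd_fact (V : ℕ) : ∀ (k w : ℕ) (a : ℕ → ℕ), (∀ i ≤ k, a i ∣ w + i) →
    (∀ i ≤ k, a i ∣ V) → ∏ i ∈ range (k + 1), a i ∣ k.factorial * V := by
  intro k
  induction k with
  | zero => intro w a _ h; simpa using h 0 le_rfl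
  | succ k ih =>
    intro w a h1 h2
    have g1 := ih w a (fun i hi => h1 i (by omega)) (fun i hi => h2 i (by omega))
    have g2 := ih (w + 1) (fun i => a (i + 1))
      (fun i hi => by rw [add_assoc, add_comm 1]; exact h1 _ (by omega))
      (fun i hi => h2 _ (by omega))
    have g3 : ∏ i ∈ range (k + 1 + 1), a i ∣ k.factorial * V * a (k + 1) := by
      rw [prod_range_succ]; exact mul_dvd_mul_right g1 _
    have g4 : ∏ i ∈ range (k + 1 + 1), a i ∣ k.factorial * V * a 0 := by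
      rw [prod_range_succ']; exact mul_dvd_mul_right g2 _
    have g5 := Nat.dvd_gcd g3 g4
    rw [Nat.gcd_mul_left] at g5
    have g6 : Nat.gcd (a (k + 1)) (a 0) ∣ k + 1 :=
      (Nat.dvd_add_right ((Nat.gcd_dvd_right _ _).trans (h1 0 (by omega)))).1
        ((Nat.gcd_dvd_left _ _).trans (h1 _ le_rfl))
    refine (g5.trans (mul_dvd_mul_left _ g6)).trans (dvd_of_eq ?_)
    rw [Nat.factorial_succ]; ring

theorem coeff_ne {n D T k M z w : ℕ} (a : Fin n → ℕ → ℤ) (h1 : ∃ b m, a b m ≠ 0)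
    (h2 : ∀ b m, D ≤ m → a b m = 0) (hD : 2 * T ≤ D) (hz : 1 ≤ z) (hw : 1 ≤ w)
    (h4 : ∀ i < k, (X + C (i : ℤ)) ^ (2 * T) ∣
      ∑ b : Fin n, C ((-(i : ℤ)) ^ (b : ℕ)) * pol D (a b))
    (hlt : n * D < k * (2 * T - n) + M * (T - n)) :
    ∃ s < M, ∃ μ < T, (taylor ((z + s : ℕ) : ℤ)
      (∑ b : Fin n, C (((w + s : ℕ) : ℤ) ^ (b : ℕ)) * pol D (a b))).coeff μ ≠ 0 := by
  classical
  by_contra hcon
  push Not at hcon
  have g2 : ∀ s < M, (X + C (-((z + s : ℕ) : ℤ))) ^ T ∣
      ∑ b : Fin n, C (((w + s : ℕ) : ℤ) ^ (b : ℕ)) * pol D (a b) := by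
    intro s hs
    obtain ⟨S, hS⟩ := X_pow_dvd_iff.2 (hcon s hs)
    have g2 := congrArg (taylor (-((z + s : ℕ) : ℤ))) hS
    rw [taylor_taylor, neg_add_cancel, taylor_zero, taylor_mul, taylor_X_pow] at g2
    exact ⟨_, g2⟩
  set F : ℚ[X][X] := ∑ b : Fin n, C ((pol D (a b)).map (Int.castRingHom ℚ)) * X ^ (b : ℕ) with hF
  have hev : ∀ (s t : ℤ) (m : ℕ),
      (X + C s) ^ m ∣ ∑ b : Fin n, C (t ^ (b : ℕ)) * pol D (a b) →
      (X - C (-(s : ℚ))) ^ m ∣ F.eval (C (t : ℚ)) := by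
    intro s t m h
    have h5 := Polynomial.map_dvd (Int.castRingHom ℚ) h
    convert h5 using 1
    · simp
    · rw [hF, Polynomial.map_sum, eval_finsetSum]
      refine sum_congr rfl fun b _ => ?_
      rw [eval_mul, eval_C, eval_pow, eval_X, Polynomial.map_mul, map_C, ← C_pow, mul_comm]
      simp only [eq_intCast, Int.cast_pow]
  have hco : ∀ b : ℕ, F.coeff b =
      ∑ i : Fin n, if b = (i : ℕ) then (pol D (a i)).map (Int.castRingHom ℚ) else 0 := by
    intro b
    simp only [hF, finsetSum_coeff, coeff_C_mul_X_pow]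
  have hF0 : F ≠ 0 := by
    intro h0
    obtain ⟨b, m, hb⟩ := h1
    have h5 := hco b
    rw [h0, coeff_zero, sum_eq_single b (fun i _ hi => if_neg fun e => hi (Fin.ext e.symm))
      (by simp), if_pos rfl] at h5
    have h6 := congrArg (fun P : ℚ[X] => P.coeff m) h5
    simp only [coeff_zero, coeff_map, pol_coeff (h2 b), eq_intCast] at h6
    exact hb (by exact_mod_cast h6.symm)
  have h7 := zero_lemma D
    (Sum.elim (fun i : ℕ => -((i : ℤ) : ℚ)) (fun s : ℕ => -((-((z + s : ℕ) : ℤ) : ℤ) : ℚ)))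
    (Sum.elim (fun i : ℕ => ((-(i : ℤ) : ℤ) : ℚ)) (fun s : ℕ => (((w + s : ℕ) : ℤ) : ℚ)))
    (Sum.elim (fun _ : ℕ => 2 * T) (fun _ : ℕ => T)) n F ((range k).disjSum (range M)) hF0
    ((natDegree_lt_iff_degree_lt hF0).2 (degree_sum_fin_lt _))
    (fun b => by
      rw [hco]
      refine natDegree_sum_le_of_forall_le _ _ fun i _ => ?_
      split_ifs
      · exact natDegree_map_le.trans (pol_natDegree _ _)
      · simp)
    (by
      rintro (s | s) - (t | t) - e <;> simp only [Sum.elim_inl, Sum.elim_inr] at e <;>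
        norm_cast at e <;> first | omega | (congr 1; omega))
    (by
      rintro (s | s) - (t | t) - e <;> simp only [Sum.elim_inl, Sum.elim_inr] at e <;>
        norm_cast at e <;> first | omega | (congr 1; omega))
    (by rintro (s | s) - <;> simp only [Sum.elim_inl, Sum.elim_inr] <;> omega)
    (by
      rintro (s | s) hs
      · exact hev _ _ _ (h4 s (by simpa using hs))
      · exact hev _ _ _ (g2 s (by simpa using hs)))
  rw [sum_disjSum] at h7
  simp only [Sum.elim_inl, Sum.elim_inr, sum_const, card_range, smul_eq_mul] at h7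
  omega

theorem junk_le {ρ D z : ℕ} (hρ : 1 ≤ ρ) (hD : 16 * ρ ≤ D) (hz : 64 * ρ ≤ z) :
    (16 * ρ).factorial * (4 * ρ * D * (4 * ρ * D * ((16 * ρ) ^ (4 * ρ) * (2 * (16 * ρ)) ^ D)) *
      (2 ^ (4 * ρ) * (2 * (2 * z)) ^ D)) ≤ z ^ (12 * D) := by
  have h0 : 1 ≤ z := by omega
  have h1 : (16 * ρ).factorial ≤ z ^ D :=
    Nat.factorial_le_pow _ |>.trans
      ((Nat.pow_le_pow_left (by omega) _).trans (Nat.pow_le_pow_right h0 hD))
  have h2 : 2 ^ D ≤ z ^ D := Nat.pow_le_pow_left (by omega) _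
  have h3 : 4 * ρ * D ≤ z ^ D * z ^ D :=
    Nat.mul_le_mul (le_trans (by omega) (Nat.le_self_pow (by omega) z))
      (Nat.lt_two_pow_self.le.trans h2)
  have h4 : (16 * ρ) ^ (4 * ρ) ≤ z ^ D :=
    (Nat.pow_le_pow_left (by omega) _).trans (Nat.pow_le_pow_right h0 (by omega))
  have h5 : (2 * (16 * ρ)) ^ D ≤ z ^ D := Nat.pow_le_pow_left (by omega) _
  have h6 : 2 ^ (4 * ρ) ≤ z ^ D := (Nat.pow_le_pow_right two_pos (by omega)).trans h2
  have h7 : (2 * (2 * z)) ^ D ≤ z ^ D * z ^ D := by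
    rw [← mul_pow]; exact Nat.pow_le_pow_left (by nlinarith) _
  calc _ ≤ z ^ D * (z ^ D * z ^ D * (z ^ D * z ^ D * (z ^ D * z ^ D)) *
        (z ^ D * (z ^ D * z ^ D))) := by gcongr
    _ ≤ _ := by
      simp only [← pow_add]
      exact Nat.pow_le_pow_right h0 (by omega)

theorem many_bad {ρ τ z w : ℕ} (hρ : 1 ≤ ρ) (hτ : 17 ≤ τ) (hz : 64 * ρ ≤ z)
    (hw : z ^ (32 * τ) ≤ w) (B : Finset ℕ) (hB : B.card ≤ ρ) :
    ¬ ∀ u < 64 * ρ, u ∉ B → w + u ∣ (z + u) ^ (ρ * τ) := by
  classical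
  intro hl
  have hzw : z ≤ w := (Nat.le_self_pow (by omega) _).trans hw
  have hT : 17 * ρ ≤ ρ * τ := by nlinarith
  have h8 : z ^ (12 * (16 * (ρ * τ))) ≤ w ^ (6 * ρ) := by
    refine le_trans (le_of_eq ?_) (Nat.pow_le_pow_left hw _)
    rw [← pow_mul]; congr 1; ring
  generalize ρ * τ = T at hl hT h8
  obtain ⟨a, h1, h2, h3, h4⟩ := exists_aux (16 * ρ) (4 * ρ) (16 * T) (2 * T) (range (16 * ρ))
    (by omega) (fun i hi => mem_range.1 hi)
    (by rw [card_range]; exact Nat.mul_pos (by omega) (by omega))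
    (by rw [card_range]; exact le_of_eq (by ring))
  obtain ⟨s, hs, μ, hμ, hV⟩ := coeff_ne (z := z) (w := w) (M := 48 * ρ) a h1 h2 (by omega)
    (by omega) (by omega) (fun i hi => h4 i (mem_range.2 hi)) (by
      obtain ⟨s, rfl⟩ := Nat.exists_eq_add_of_le hT
      rw [show 2 * (17 * ρ + s) - 4 * ρ = 30 * ρ + 2 * s by omega,
        show 17 * ρ + s - 4 * ρ = 13 * ρ + s by omega]
      nlinarith)
  have hb := value_bound (D := 16 * T) a h3 (by omega : 1 ≤ z + s) (by omega : 1 ≤ w + s) μ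
  have hj := junk_le (D := 16 * T) hρ (by omega) hz
  have hd := prod_dvd_fact _ (16 * ρ - 1) (w + s)
    (fun i => Nat.gcd (w + s + i) ((z + s + i) ^ T)) (fun i _ => Nat.gcd_dvd_left _ _)
    (fun i hi => gcd_dvd_value a (h4 i (mem_range.2 (by omega))) hμ.le)
  rw [Nat.sub_add_cancel (by omega)] at hd
  rw [Int.abs_eq_natAbs, Nat.cast_le] at hb
  have h5 := (Nat.le_of_dvd (Nat.mul_pos (Nat.factorial_pos _) (Int.natAbs_pos.2 hV)) hd).trans
    (Nat.mul_le_mul (Nat.factorial_le (Nat.sub_le _ 1)) hb)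
  have h6 : w ^ (15 * ρ) ≤ ∏ i ∈ range (16 * ρ), Nat.gcd (w + s + i) ((z + s + i) ^ T) := by
    have g1 : ((range (16 * ρ)).filter fun i => s + i ∈ B).card ≤ B.card :=
      card_le_card_of_injOn (fun i => s + i) (fun i hi => (mem_filter.1 hi).2)
        (fun i _ j _ e => by simpa using e)
    have g2 := card_filter_add_card_filter_not (s := range (16 * ρ)) fun i => s + i ∈ B
    rw [card_range] at g2
    refine le_trans ?_ (prod_le_prod_of_subset_of_one_le' (filter_subset (fun i => ¬ s + i ∈ B) _)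
      fun i _ _ => Nat.gcd_pos_of_pos_left _ (by omega))
    refine le_trans (Nat.pow_le_pow_right (by omega) (by omega)) (pow_card_le_prod _ _ w ?_)
    intro i hi
    obtain ⟨g3, g4⟩ := mem_filter.1 hi
    have g5 := hl (s + i) (by have := mem_range.1 g3; omega) g4
    rw [← add_assoc, ← add_assoc] at g5
    rw [Nat.gcd_eq_left g5]
    omega
  generalize (16 * ρ).factorial = G at h5 hj
  generalize 4 * ρ * (16 * T) * ((16 * ρ) ^ (4 * ρ) * (2 * (16 * ρ)) ^ (16 * T)) = H at h5 hj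
  generalize 16 * T = D at h5 hj h8
  have h9 : w ^ (15 * ρ) ≤ w ^ (10 * ρ) := by
    calc _ ≤ G * (4 * ρ * ((2 * w) ^ (4 * ρ) * (D * (H * (2 * (2 * z)) ^ D)))) := by
          refine h6.trans (h5.trans ?_)
          gcongr <;> omega
      _ = G * (4 * ρ * D * H * (2 ^ (4 * ρ) * (2 * (2 * z)) ^ D)) * w ^ (4 * ρ) := by
          rw [mul_pow 2 w]; ring
      _ ≤ w ^ (6 * ρ) * w ^ (4 * ρ) := Nat.mul_le_mul_right _ (hj.trans h8)
      _ = _ := by ring
  exact absurd h9 (not_le.2 (Nat.pow_lt_pow_right (by omega) (by omega)))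

end Pool.Agent.P.MP_ed9a6e_lc.Win
end

-- part Pool.Agent.P.MP_ed9a6e_lc.W3
section

set_option autoImplicit false

/-! Windows of length `C log x / log log x` separate the integers. -/

namespace Pool.Agent.P.MP_ed9a6e_lc.Win

open Finset

theorem heavy {a b T : ℕ} (ha : a ≠ 0) (hb : b ≠ 0) (h : ∀ p : ℕ, p.Prime → p ∣ a → p ∣ b)
    (hn : ¬ a ∣ b ^ T) : ∃ p : ℕ, p.Prime ∧ p ^ T ∣ a := by
  by_contra hc
  push Not at hc
  refine hn ((Nat.factorization_prime_le_iff_dvd ha (pow_ne_zero _ hb)).1 fun p hp => ?_)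
  have h1 := hc p hp
  rw [hp.pow_dvd_iff_le_factorization ha] at h1
  rw [Nat.factorization_pow, Finsupp.smul_apply, smul_eq_mul]
  by_cases h0 : a.factorization p = 0
  · omega
  have h2 : 1 ≤ b.factorization p :=
    hp.factorization_pos_of_dvd hb (h p hp (Nat.dvd_of_factorization_pos h0))
  exact (not_le.1 h1).le.trans (Nat.le_mul_of_pos_right _ h2)

theorem large {ρ x y : ℕ} (hρ : 1 ≤ ρ) (hx : 64 * ρ ≤ x) (h1 : x ^ 34 < ρ ^ ρ)
    (hy : (x ^ 32) ^ 17 ≤ y) :
    ¬ ∀ i < 64 * ρ, ∀ p : ℕ, p.Prime → p ∣ y + i → p ∣ x + i := by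
  classical
  intro h
  have hz : 1 < x ^ 32 := Nat.one_lt_pow (by norm_num) (by omega)
  have hy0 : y ≠ 0 := by
    have : 0 < (x ^ 32) ^ 17 := by positivity
    omega
  have g3 : 17 ≤ Nat.log (x ^ 32) y := Nat.le_log_of_pow_le hz hy
  have g1 := Nat.pow_log_le_self (x ^ 32) hy0
  have g2 := Nat.lt_pow_succ_log_self hz y
  generalize Nat.log (x ^ 32) y = τ at g1 g2 g3
  rw [← pow_mul] at g1 g2
  have g7 : x ≤ y := (Nat.le_self_pow (by omega) _).trans g1
  have hall : ∀ u, ∃ p, u ∈ (range (64 * ρ)).filter (fun u => ¬ y + u ∣ (x + u) ^ (ρ * τ)) →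
      p < ρ ∧ 2 ≤ p ∧ p ^ (ρ * τ) ∣ y + u := by
    intro u
    by_cases hu : u ∈ (range (64 * ρ)).filter (fun u => ¬ y + u ∣ (x + u) ^ (ρ * τ))
    · obtain ⟨g4, g5⟩ := mem_filter.1 hu
      have g4 := mem_range.1 g4
      obtain ⟨p, hp, g6⟩ := heavy (by omega) (by omega) (h u g4) g5
      refine ⟨p, fun _ => ⟨?_, hp.two_le, g6⟩⟩
      have g8 : (p ^ ρ) ^ τ ≤ (x ^ 34) ^ τ := by
        rw [← pow_mul, ← pow_mul]
        calc _ ≤ y + u := Nat.le_of_dvd (by omega) g6
          _ ≤ x * x ^ (32 * τ.succ) := by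
              have : 2 * x ^ (32 * τ.succ) ≤ x * x ^ (32 * τ.succ) :=
                Nat.mul_le_mul_right _ (by omega)
              omega
          _ ≤ _ := by
              rw [← pow_succ']
              exact Nat.pow_le_pow_right (by omega) (by omega)
      exact lt_of_pow_lt_pow_left₀ ρ (by positivity)
        (((Nat.pow_le_pow_iff_left (by omega)).1 g8).trans_lt h1)
    · exact ⟨0, fun e => absurd e hu⟩
  choose p hp using hall
  have hT : 64 * ρ ≤ 2 ^ (ρ * τ) := by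
    calc 64 * ρ ≤ 2 ^ 6 * 2 ^ ρ := Nat.mul_le_mul (by norm_num) Nat.lt_two_pow_self.le
      _ ≤ _ := by rw [← pow_add]; exact Nat.pow_le_pow_right two_pos (by nlinarith)
  have key : ∀ u v, u ∈ (range (64 * ρ)).filter (fun u => ¬ y + u ∣ (x + u) ^ (ρ * τ)) →
      v ∈ (range (64 * ρ)).filter (fun u => ¬ y + u ∣ (x + u) ^ (ρ * τ)) → p u = p v →
      ¬ u < v := by
    intro u v hu hv e huv
    obtain ⟨-, a2, a3⟩ := hp u hu
    obtain ⟨-, -, b3⟩ := hp v hv
    rw [← e] at b3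
    have c1 := Nat.le_of_dvd (by omega) (Nat.dvd_sub b3 a3)
    have c2 : 2 ^ (ρ * τ) ≤ p u ^ (ρ * τ) := Nat.pow_le_pow_left a2 _
    have c3 := mem_range.1 (mem_filter.1 hv).1
    omega
  refine many_bad hρ g3 hx g1 ((range (64 * ρ)).filter (fun u => ¬ y + u ∣ (x + u) ^ (ρ * τ)))
    ?_ fun u hu hn => ?_
  · have := card_le_card_of_injOn (t := range ρ) p
      (fun u hu => mem_coe.2 (mem_range.2 (hp u hu).1))
      (fun u hu v hv e => le_antisymm (not_lt.1 (key v u hv hu e.symm)) (not_lt.1 (key u v hu hv e)))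
    rwa [card_range] at this
  · by_contra hc
    exact hn (mem_filter.2 ⟨mem_range.2 hu, hc⟩)

theorem small {m x y : ℕ} (hm : 1 ≤ m) (hx : 2 * (4 * m) ^ 2 ≤ x) (hxy : x < y)
    (h : ∀ i < 4 * m, ∀ p : ℕ, p.Prime → p ∣ y + i → p ∣ x + i) : m ^ m ≤ y := by
  classical
  have h4 : 4 * m ≤ x := by nlinarith
  have h1 := prod_dvd_fact (∏ p ∈ (y - x).primeFactors, p ^ Nat.log p (y + 4 * m)) (4 * m - 1) y
    (fun i => y + i) (fun _ _ => dvd_rfl) (fun i hi => by
      refine (Nat.dvd_iff_prime_pow_dvd_dvd _ _).2 fun p k hp hk => ?_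
      rcases Nat.eq_zero_or_pos k with rfl | hk0
      · simp
      have g1 : p ∣ y + i := (dvd_pow_self p hk0.ne').trans hk
      have g2 := Nat.dvd_sub g1 (h i (by omega) p hp g1)
      rw [show y + i - (x + i) = y - x by omega] at g2
      refine dvd_trans (pow_dvd_pow p (Nat.le_log_of_pow_le hp.one_lt
        ((Nat.le_of_dvd (by omega) hk).trans (by omega))))
        (dvd_prod_of_mem _ (Nat.mem_primeFactors.2 ⟨hp, g2, by omega⟩)))
  rw [Nat.sub_add_cancel (by omega)] at h1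
  have h2 : y ^ (4 * m) ≤ (4 * m) ^ (4 * m) * (2 * y) ^ (y - x).primeFactors.card := by
    have g1 : y ^ (4 * m) ≤ ∏ i ∈ range (4 * m), (y + i) := by
      simpa using pow_card_le_prod (range (4 * m)) (fun i => y + i) y fun i _ => by omega
    refine g1.trans ((Nat.le_of_dvd (Nat.mul_pos (Nat.factorial_pos _) (prod_pos fun p hp =>
      pow_pos (Nat.pos_of_mem_primeFactors hp) _)) h1).trans (Nat.mul_le_mul
        ((Nat.factorial_le (Nat.sub_le _ 1)).trans (Nat.factorial_le_pow _)) ?_))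
    exact prod_le_pow_card _ _ _ fun p _ => (Nat.pow_log_le_self p (by omega)).trans (by omega)
  have h3 : 2 * m < (y - x).primeFactors.card := by
    by_contra hc
    have g1 : (y * y) ^ (2 * m) ≤ (2 * (4 * m) ^ 2 * y) ^ (2 * m) := by
      calc (y * y) ^ (2 * m) = y ^ (4 * m) := by ring
        _ ≤ (4 * m) ^ (4 * m) * (2 * y) ^ (2 * m) :=
            h2.trans (Nat.mul_le_mul_left _ (Nat.pow_le_pow_right (by omega) (not_lt.1 hc)))
        _ = _ := by
            rw [show 4 * m = 2 * (2 * m) by ring, pow_mul, ← mul_pow]; congr 1; ring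
    have g2 := Nat.le_of_mul_le_mul_right ((Nat.pow_le_pow_iff_left (by omega)).1 g1) (by omega)
    omega
  have h5 : m ≤ ((y - x).primeFactors \ range m).card := by
    have := le_card_sdiff (range m) (y - x).primeFactors
    rw [card_range] at this
    omega
  calc m ^ m ≤ m ^ ((y - x).primeFactors \ range m).card := Nat.pow_le_pow_right hm h5
    _ ≤ ∏ p ∈ (y - x).primeFactors \ range m, p :=
        pow_card_le_prod _ _ _ fun p hp => by simpa using (mem_sdiff.1 hp).2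
    _ ≤ ∏ p ∈ (y - x).primeFactors, p :=
        prod_le_prod_of_subset_of_one_le' sdiff_subset fun p hp _ => Nat.pos_of_mem_primeFactors hp
    _ ≤ y - x := Nat.le_of_dvd (by omega) (Nat.prod_primeFactors_dvd _)
    _ ≤ y := Nat.sub_le _ _

theorem main_nat {ρ x y K : ℕ} (hρ : 1 ≤ ρ) (hx : 2 * (64 * ρ) ^ 2 ≤ x) (h1 : x ^ 34 < ρ ^ ρ)
    (hxy : x < y) (h : ∀ i < K, ∀ p : ℕ, p.Prime → p ∣ y + i → p ∣ x + i) : K < 64 * ρ := by
  by_contra hK
  have g1 := small (m := 16 * ρ) (by omega) (by rwa [show 4 * (16 * ρ) = 64 * ρ by ring]) hxy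
    fun i hi => h i (by omega)
  refine large (y := y) hρ (by nlinarith) h1 (le_trans ?_ g1) fun i hi => h i (by omega)
  calc (x ^ 32) ^ 17 = (x ^ 34) ^ 16 := by rw [← pow_mul, ← pow_mul]
    _ ≤ (ρ ^ ρ) ^ 16 := Nat.pow_le_pow_left h1.le _
    _ = ρ ^ (16 * ρ) := by rw [← pow_mul, mul_comm]
    _ ≤ _ := Nat.pow_le_pow_left (by omega) _

theorem exists_rho : ∃ x0 : ℕ, 3 ≤ x0 ∧ ∀ x, x0 ≤ x → ∃ ρ : ℕ, 1 ≤ ρ ∧ 2 * (64 * ρ) ^ 2 ≤ x ∧
    x ^ 34 < ρ ^ ρ ∧ (ρ : ℝ) ≤ 70 * (Real.log x / Real.log (Real.log x)) := by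
  have h := (Real.isLittleO_pow_log_id_atTop (n := 2)).bound (c := 1 / (2 * (64 * 70) ^ 2))
    (by norm_num)
  have h' := Real.tendsto_log_atTop.eventually_ge_atTop 3
  obtain ⟨r, hr⟩ := Filter.eventually_atTop.1 (h.and h')
  refine ⟨⌈r⌉₊ + 3, by omega, fun x hx => ?_⟩
  have hx3 : (3 : ℝ) ≤ x := by exact_mod_cast (by omega : 3 ≤ x)
  obtain ⟨h1, h2⟩ := hr x ((Nat.le_ceil r).trans (by exact_mod_cast (by omega : ⌈r⌉₊ ≤ x)))
  rw [Real.norm_of_nonneg (by positivity), id, Real.norm_of_nonneg (by linarith)] at h1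
  have hex : Real.exp (Real.log x) = x := Real.exp_log (by linarith)
  generalize Real.log x = t at h1 h2 hex ⊢
  have h3 : 1 ≤ Real.log t := by
    rw [Real.le_log_iff_exp_le (by linarith)]
    linarith [Real.exp_one_lt_d9]
  have h4 : Real.log t ≤ 2 * √t := by
    have := Real.log_le_sub_one_of_pos (Real.sqrt_pos.2 (by linarith : 0 < t))
    rw [Real.log_sqrt (by linarith)] at this
    linarith
  have h5 : 0 < √t := Real.sqrt_pos.2 (by linarith)
  have h6 : √t * √t = t := Real.mul_self_sqrt (by linarith)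
  obtain ⟨q, hq⟩ : ∃ q, q = t / Real.log t := ⟨_, rfl⟩
  have h7 : q * Real.log t = t := by rw [hq]; field_simp
  have h8 : 1 ≤ q := by
    rw [hq, le_div_iff₀ (by linarith)]
    linarith [Real.log_le_sub_one_of_pos (by linarith : 0 < t)]
  have h9 : √t ≤ 2 * q := by nlinarith
  have h10 : q ≤ t := by nlinarith
  rw [← hq]
  have g1 := Nat.le_ceil (69 * q)
  have g2 := (Nat.ceil_lt_add_one (by linarith : 0 ≤ 69 * q)).le
  generalize ⌈69 * q⌉₊ = ρ at g1 g2
  have g3 : (ρ : ℝ) ≤ 70 * q := by linarith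
  refine ⟨ρ, by exact_mod_cast (by linarith : (1 : ℝ) ≤ ρ), ?_, ?_, g3⟩
  · have : 2 * (64 * (ρ : ℝ)) ^ 2 ≤ x := by
      have : (ρ : ℝ) ^ 2 ≤ (70 * t) ^ 2 := pow_le_pow_left₀ (by positivity) (by linarith) 2
      nlinarith
    exact_mod_cast this
  · have g4 : Real.log t / 2 ≤ Real.log ρ := by
      rw [← Real.log_sqrt (by linarith)]
      exact Real.log_le_log h5 (by linarith)
    have g5 : (x : ℝ) ^ 34 < (ρ : ℝ) ^ ρ := by
      rw [← Real.log_lt_log_iff (by positivity) (pow_pos (by linarith) _), Real.log_pow,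
        Real.log_pow, ← hex, Real.log_exp]
      have : 69 * q * (Real.log t / 2) ≤ ρ * Real.log ρ :=
        mul_le_mul g1 g4 (by linarith) (by linarith)
      push_cast
      nlinarith
    exact_mod_cast g5

theorem main : ∃ C : ℝ, ∀ x y K : ℕ, 3 ≤ x → x < y →
    (∀ i < K, ∀ p : ℕ, p.Prime → p ∣ y + i → p ∣ x + i) →
    (K : ℝ) ≤ C * (Real.log x / Real.log (Real.log x)) := by
  obtain ⟨x0, hx0, H⟩ := exists_rho
  obtain ⟨ρ0, a1, a2, a3, -⟩ := H x0 le_rfl
  refine ⟨64 * 70 + (x0 + 64 * ρ0 : ℕ), fun x y K hx hxy h => ?_⟩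
  have hx3 : (3 : ℝ) ≤ x := by exact_mod_cast hx
  have h3 : 1 < Real.log x := by
    rw [Real.lt_log_iff_exp_lt (by linarith)]
    linarith [Real.exp_one_lt_d9]
  have h4 : 1 ≤ Real.log x / Real.log (Real.log x) := by
    rw [le_div_iff₀ (Real.log_pos h3)]
    linarith [Real.log_le_sub_one_of_pos (by linarith : 0 < Real.log x)]
  have h5 : (0 : ℝ) ≤ (x0 + 64 * ρ0 : ℕ) := Nat.cast_nonneg _
  rcases le_total x0 x with hc | hc
  · obtain ⟨ρ, b1, b2, b3, b4⟩ := H x hc
    have : (K : ℝ) ≤ 64 * ρ := by exact_mod_cast (main_nat b1 b2 b3 hxy h).le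
    nlinarith
  · have g1 := main_nat (y := y + (x0 - x)) (K := K - (x0 - x)) a1 a2 a3 (by omega)
      (fun i hi p hp hd => by
        have := h (x0 - x + i) (by omega) p hp (by rwa [← add_assoc])
        rwa [show x + (x0 - x + i) = x0 + i by omega] at this)
    have : (K : ℝ) ≤ (x0 + 64 * ρ0 : ℕ) := by exact_mod_cast (by omega : K ≤ x0 + 64 * ρ0)
    nlinarith

end Pool.Agent.P.MP_ed9a6e_lc.Win
end
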